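import Mathlib

/-!
Definitions for MP_cf3138_an: rational maps of the Riemann sphere, Fatou and Julia sets, Herman
rings, buried Julia components.
-/

open Set Filter Topology OnePoint Polynomial

namespace Pool.Agent.Work.MP_cf3138_an

/-- The Riemann sphere, as the one-point compactification of `ℂ`. -/
abbrev Sph : Type := OnePoint ℂ

/-- The inversion `z ↦ 1/z` of the Riemann sphere. -/
noncomputable def sinv : Sph → Sph
  | ∞ => ((0 : ℂ) : Sph)
  | OnePoint.some z => if z = 0 then ∞ else ((z⁻¹ : ℂ) : Sph)

/-- The map `P / Q` of the Riemann sphere for polynomials `P`, `Q`: the value is `∞` where the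
denominator vanishes, and the value at `∞` is `∞` if `deg P > deg Q` and the quotient of the
coefficients of degree `deg Q` otherwise. -/
noncomputable def ratMap (P Q : ℂ[X]) : Sph → Sph
  | ∞ => if Q.natDegree < P.natDegree then ∞
      else ((P.coeff Q.natDegree / Q.leadingCoeff : ℂ) : Sph)
  | OnePoint.some z => if Q.eval z = 0 then ∞ else ((P.eval z / Q.eval z : ℂ) : Sph)

/-- `f` is a rational map of degree at least 2: `f = P / Q` with `P`, `Q` coprime and
`max (deg P) (deg Q) ≥ 2`. -/
def IsRationalOfDegreeGeTwo (f : Sph → Sph) : Prop :=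
  ∃ P Q : ℂ[X], IsCoprime P Q ∧ 2 ≤ max P.natDegree Q.natDegree ∧ f = ratMap P Q

/-- Normality of the family `F n` on `U`: every sequence of members of the family has a
subsequence converging locally uniformly on `U`.  The sphere carries the unique uniform structure
of a compact Hausdorff space, which is the one of the spherical metric. -/
def IsNormalOn (F : ℕ → Sph → Sph) (U : Set Sph) : Prop :=
  letI : UniformSpace Sph := uniformSpaceOfCompactR1
  ∀ σ : ℕ → ℕ, ∃ τ : ℕ → ℕ, StrictMono τ ∧ ∃ g : Sph → Sph,
    TendstoLocallyUniformlyOn (fun k => F (σ (τ k))) g atTop U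

/-- The Fatou set: the points having a neighbourhood on which the iterates are a normal
family. -/
def fatouSet (f : Sph → Sph) : Set Sph :=
  {z | ∃ U : Set Sph, IsOpen U ∧ z ∈ U ∧ IsNormalOn (fun n => f^[n]) U}

/-- The Julia set. -/
def juliaSet (f : Sph → Sph) : Set Sph := (fatouSet f)ᶜ

/-- Fatou components: connected components of the Fatou set. -/
def IsFatouComponent (f : Sph → Sph) (U : Set Sph) : Prop :=
  ∃ z ∈ fatouSet f, U = connectedComponentIn (fatouSet f) z

/-- Julia components: connected components of the Julia set. -/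
def IsJuliaComponent (f : Sph → Sph) (K : Set Sph) : Prop :=
  ∃ z ∈ juliaSet f, K = connectedComponentIn (juliaSet f) z

/-- `φ : Sph → ℂ` is holomorphic on `H ⊆ Sph` (in the chart `w ↦ 1/w` at infinity). -/
def HolomorphicOnSphere (φ : Sph → ℂ) (H : Set Sph) : Prop :=
  (∀ z : ℂ, (z : Sph) ∈ H → AnalyticAt ℂ (fun w : ℂ => φ (w : Sph)) z) ∧
  ((∞ : Sph) ∈ H → AnalyticAt ℂ (fun w : ℂ => φ (sinv (w : Sph))) 0)

/-- `H` is a Herman ring of `f`: a periodic Fatou component of minimal period `p`, with a
conformal isomorphism `φ` onto a round annulus `1 < |z| < r` conjugating `f^p` to an irrational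
rotation. -/
def IsHermanRing (f : Sph → Sph) (H : Set Sph) : Prop :=
  IsFatouComponent f H ∧ ∃ p : ℕ, 0 < p ∧ f^[p] '' H = H ∧
    (∀ q : ℕ, 0 < q → q < p → f^[q] '' H ≠ H) ∧
    ∃ (r θ : ℝ) (φ : OpenPartialHomeomorph Sph ℂ), 1 < r ∧ Irrational θ ∧
      φ.source = H ∧ φ.target = {z | 1 < ‖z‖ ∧ ‖z‖ < r} ∧ HolomorphicOnSphere φ H ∧
      ∀ z ∈ H, φ (f^[p] z) = Complex.exp (2 * Real.pi * θ * Complex.I) * φ z

/-- A Julia component is buried if it meets the boundary of no Fatou component. -/
def IsBuried (f : Sph → Sph) (K : Set Sph) : Prop :=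
  ∀ U, IsFatouComponent f U → K ∩ frontier U = ∅

end Pool.Agent.Work.MP_cf3138_an
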