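import Pool.Agent.Work.MP_cf3138_an.Sphere

/-!
A circle in an annulus embedded in the sphere separates the two sides of the annulus.
-/

open Set Filter Topology OnePoint Metric

namespace Pool.Agent.Work.MP_cf3138_an

lemma isPreconnected_annulus (I : Set ℝ) (hI : Convex ℝ I) (hpos : ∀ x ∈ I, 0 < x) :
    IsPreconnected {z : ℂ | ‖z‖ ∈ I} := by
  have h1 : IsPreconnected (I ×ˢ (univ : Set ℝ)) := (hI.prod convex_univ).isPreconnected
  have h2 : Continuous (fun p : ℝ × ℝ => (p.1 : ℂ) * Complex.exp (p.2 * Complex.I)) := by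
    fun_prop
  have h3 := h1.image _ h2.continuousOn
  convert h3 using 1
  ext z
  constructor
  · intro hz
    refine ⟨(‖z‖, z.arg), ⟨hz, mem_univ _⟩, ?_⟩
    exact Complex.norm_mul_exp_arg_mul_I z
  · rintro ⟨⟨a, b⟩, ⟨ha, -⟩, rfl⟩
    simp only at ha ⊢
    show ‖(a : ℂ) * Complex.exp (b * Complex.I)‖ ∈ I
    rw [norm_mul, Complex.norm_exp_ofReal_mul_I, mul_one, Complex.norm_real, Real.norm_eq_abs,
      abs_of_pos (hpos a ha)]
    exact ha

lemma exists_global_log {u : ℂ → ℂ} (hu : Continuous u) (h0 : ∀ z, u z ≠ 0) :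
    ∃ L : ℂ → ℂ, Continuous L ∧ ∀ z, Complex.exp (L z) = u z := by
  have h1 : IsSimplyConnected (univ : Set ℂ) := by
    have : SimplyConnectedSpace ℂ := inferInstance
    rw [IsSimplyConnected]
    exact (Homeomorph.Set.univ ℂ).toHomotopyEquiv.simplyConnectedSpace
  obtain ⟨L, hL1, hL2⟩ := Complex.exists_continuousOn_eqOn_exp_comp h1 isOpen_univ
    hu.continuousOn (by rintro ⟨z, -, hz⟩; exact h0 z hz)
  exact ⟨L, continuousOn_univ.1 hL1, fun z => hL2 (mem_univ z)⟩

lemma int_of_exp {z : ℂ} (h : Complex.exp z = 1) : ∃ n : ℤ, z = n * (2 * Real.pi * Complex.I) :=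
  Complex.exp_eq_one_iff.1 h

lemma eq_of_close {z w : ℂ} (hz : Complex.exp z = 1) (hw : Complex.exp w = 1)
    (h : dist z w < 1) : z = w := by
  obtain ⟨m, hm⟩ := int_of_exp hz
  obtain ⟨n, hn⟩ := int_of_exp hw
  have h1 : m = n := by
    by_contra hmn
    have h2 : (1 : ℝ) ≤ |((m - n : ℤ) : ℝ)| := by
      rw [← Int.cast_abs]
      exact_mod_cast Int.one_le_abs (sub_ne_zero.2 hmn)
    have h3 : dist z w = |((m - n : ℤ) : ℝ)| * (2 * Real.pi) := by
      rw [dist_eq_norm, hm, hn, ← sub_mul, norm_mul, norm_mul, norm_mul, Complex.norm_I, mul_one,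
        Complex.norm_real, Real.norm_eq_abs, abs_of_pos Real.pi_pos, Complex.norm_ofNat]
      congr 1
      rw [← Int.cast_sub, Complex.norm_intCast]
    rw [h3] at h
    have h4 := Real.pi_gt_three
    nlinarith
  rw [hm, hn, h1]

lemma isDiscrete_periods : IsDiscrete {w : ℂ | Complex.exp w = 1} := by
  rw [isDiscrete_iff_forall_mem_exists_isOpen]
  intro y hy
  refine ⟨ball y 1, isOpen_ball, ?_⟩
  ext w
  constructor
  · rintro ⟨h1, h2⟩
    exact eq_of_close h2 hy h1
  · rintro rfl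
    exact ⟨mem_ball_self one_pos, hy⟩

/-- A nowhere zero continuous function on the sphere which is `1` near infinity has a continuous
logarithm. -/
lemma exists_sphere_log {u : Sph → ℂ} (hu : Continuous u) (h0 : ∀ z, u z ≠ 0)
    (hinf : ∀ᶠ x in 𝓝 (∞ : Sph), u x = 1) :
    ∃ L : Sph → ℂ, Continuous L ∧ ∀ z, Complex.exp (L z) = u z := by
  obtain ⟨L, hL, hLu⟩ := exists_global_log (hu.comp OnePoint.continuous_coe) (fun z => h0 z)
  -- constant near infinity
  have h1 : ∀ᶠ z : ℂ in coclosedCompact ℂ, u (z : Sph) = 1 :=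
    (OnePoint.tendsto_coe_infty (X := ℂ)).eventually hinf
  rw [coclosedCompact_eq_cocompact, ← Metric.cobounded_eq_cocompact] at h1
  obtain ⟨R, -, hR⟩ := (hasBasis_cobounded_norm (E := ℂ)).eventually_iff.1 h1
  have h2 : IsPreconnected {z : ℂ | ‖z‖ ∈ Ioi (max R 0)} :=
    isPreconnected_annulus _ (convex_Ioi _) (fun x hx => (le_max_right _ _).trans_lt hx)
  have h3 : ∀ z : ℂ, ‖z‖ ∈ Ioi (max R 0) → Complex.exp (L z) = 1 := by
    intro z hz
    rw [hLu]
    exact hR (le_of_lt ((le_max_left R 0).trans_lt hz))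
  obtain ⟨c, hc1, hc⟩ : ∃ c, Complex.exp c = 1 ∧ ∀ z : ℂ, ‖z‖ ∈ Ioi (max R 0) → L z = c := by
    obtain ⟨y, hy, h⟩ := h2.eqOn_const_of_mapsTo isDiscrete_periods hL.continuousOn h3
      ⟨0, Complex.exp_zero⟩
    exact ⟨y, hy, h⟩
  refine ⟨fun x => x.elim c L, ?_, ?_⟩
  · rw [continuous_iff_continuousAt]
    intro x
    induction x using OnePoint.rec with
    | infty =>
      rw [OnePoint.continuousAt_infty']
      refine Tendsto.congr' ?_ tendsto_const_nhds
      rw [coclosedCompact_eq_cocompact, ← Metric.cobounded_eq_cocompact]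
      have h4 : ∀ᶠ z : ℂ in Bornology.cobounded ℂ, max R 0 + 1 ≤ ‖z‖ :=
        (hasBasis_cobounded_norm (E := ℂ)).mem_of_mem trivial
      filter_upwards [h4] with z hz
      show c = L z
      rw [hc z]
      show max R 0 < ‖z‖
      linarith
    | coe z =>
      rw [OnePoint.continuousAt_coe]
      exact hL.continuousAt
  · intro x
    induction x using OnePoint.rec with
    | infty => exact hc1.trans hinf.self_of_nhds.symm
    | coe z => exact hLu z

/-- The circle of radius `s` in an annulus embedded in the sphere separates its two sides. -/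
theorem separation (φ : OpenPartialHomeomorph Sph ℂ) {r s : ℝ} (hs1 : 1 < s) (hsr : s < r)
    (htgt : φ.target = {z | 1 < ‖z‖ ∧ ‖z‖ < r})
    (hinf : ∞ ∈ φ.source → ‖φ ∞‖ ≠ s) :
    ∃ D : Set Sph, IsOpen D ∧ IsOpen {x | ¬ (x ∈ φ.source ∧ ‖φ x‖ = s) ∧ x ∉ D} ∧
      (∀ x ∈ D, ¬ (x ∈ φ.source ∧ ‖φ x‖ = s)) ∧
      (∀ x ∈ φ.source, ‖φ x‖ < s → x ∈ D) ∧ (∀ x ∈ φ.source, s < ‖φ x‖ → x ∉ D) := by
  classical
  -- a thin closed annulus avoiding infinity
  obtain ⟨δ, hδ, hδ1, hδ2, hδ3⟩ : ∃ δ : ℝ, 0 < δ ∧ 1 < s - δ ∧ s + δ < r ∧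
      (∞ ∈ φ.source → ‖φ ∞‖ < s - δ ∨ s + δ < ‖φ ∞‖) := by
    by_cases h : ∞ ∈ φ.source
    · have h1 : 0 < |‖φ ∞‖ - s| := abs_pos.2 (sub_ne_zero.2 (hinf h))
      refine ⟨min (min ((s - 1) / 2) ((r - s) / 2)) (|‖φ ∞‖ - s| / 2), ?_, ?_, ?_, fun _ => ?_⟩
      · refine lt_min (lt_min ?_ ?_) ?_ <;> linarith
      · have := min_le_left (min ((s - 1) / 2) ((r - s) / 2)) (|‖φ ∞‖ - s| / 2)
        have := min_le_left ((s - 1) / 2) ((r - s) / 2)
        linarith
      · have := min_le_left (min ((s - 1) / 2) ((r - s) / 2)) (|‖φ ∞‖ - s| / 2)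
        have := min_le_right ((s - 1) / 2) ((r - s) / 2)
        linarith
      · have h2 := min_le_right (min ((s - 1) / 2) ((r - s) / 2)) (|‖φ ∞‖ - s| / 2)
        rcases lt_or_gt_of_ne (hinf h) with h3 | h3
        · left
          rw [abs_of_neg (by linarith)] at h2 ⊢
          rw [abs_of_neg (by linarith)] at h1
          linarith
        · right
          rw [abs_of_pos (by linarith)] at h2 ⊢
          rw [abs_of_pos (by linarith)] at h1
          linarith
    · refine ⟨min ((s - 1) / 2) ((r - s) / 2), lt_min (by linarith) (by linarith), ?_, ?_,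
        fun h' => absurd h' h⟩
      · have := min_le_left ((s - 1) / 2) ((r - s) / 2)
        linarith
      · have := min_le_right ((s - 1) / 2) ((r - s) / 2)
        linarith
  -- the compact annulus `N`
  obtain ⟨N, hN⟩ : ∃ N : Set Sph, N = {x | x ∈ φ.source ∧ s - δ ≤ ‖φ x‖ ∧ ‖φ x‖ ≤ s + δ} :=
    ⟨_, rfl⟩
  have hNcl : IsClosed N := by
    have h1 : IsCompact {z : ℂ | s - δ ≤ ‖z‖ ∧ ‖z‖ ≤ s + δ} := by
      refine (isCompact_closedBall (0 : ℂ) (s + δ)).of_isClosed_subset ?_ ?_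
      · exact (isClosed_le continuous_const continuous_norm).inter
          (isClosed_le continuous_norm continuous_const)
      · rintro z ⟨-, hz⟩; simpa using hz
    have h2 : {z : ℂ | s - δ ≤ ‖z‖ ∧ ‖z‖ ≤ s + δ} ⊆ φ.target := by
      rintro z ⟨h3, h4⟩
      rw [htgt]
      exact ⟨by linarith, by linarith⟩
    have h3 : IsCompact (φ.symm '' {z : ℂ | s - δ ≤ ‖z‖ ∧ ‖z‖ ≤ s + δ}) :=
      h1.image_of_continuousOn (φ.symm.continuousOn.mono h2)
    have h4 : N = φ.symm '' {z : ℂ | s - δ ≤ ‖z‖ ∧ ‖z‖ ≤ s + δ} := by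
      rw [hN]
      ext x
      constructor
      · rintro ⟨h5, h6⟩
        exact ⟨φ x, h6, φ.left_inv h5⟩
      · rintro ⟨z, hz, rfl⟩
        refine ⟨φ.map_target (h2 hz), ?_⟩
        rw [φ.right_inv (h2 hz)]; exact hz
    rw [h4]; exact h3.isClosed
  have hopen := φ.open_source
  -- the radial parameter
  obtain ⟨t, ht⟩ : ∃ t : Sph → ℝ, ∀ x, t x = max 0 (min 1 ((‖φ x‖ - (s - δ)) / (2 * δ))) :=
    ⟨_, fun _ => rfl⟩
  have htc : ContinuousOn t φ.source := by
    have h0 : Continuous (fun y : ℝ => max 0 (min 1 ((y - (s - δ)) / (2 * δ)))) := by fun_prop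
    have h1 : ContinuousOn (fun x => max 0 (min 1 ((‖φ x‖ - (s - δ)) / (2 * δ)))) φ.source :=
      h0.comp_continuousOn φ.continuousOn.norm
    exact h1.congr (fun x _ => ht x)
  have ht0 : ∀ x, ‖φ x‖ ≤ s - δ → t x = 0 := by
    intro x hx
    rw [ht]
    apply max_eq_left
    refine (min_le_right _ _).trans (div_nonpos_of_nonpos_of_nonneg (by linarith) (by linarith))
  have ht1 : ∀ x, s + δ ≤ ‖φ x‖ → t x = 1 := by
    intro x hx
    rw [ht, min_eq_left, max_eq_right zero_le_one]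
    rw [le_div_iff₀ (by linarith)]; linarith
  have hthalf : ∀ x, ‖φ x‖ = s → t x = 1 / 2 := by
    intro x hx
    rw [ht, hx]
    have : (s - (s - δ)) / (2 * δ) = 1 / 2 := by field_simp; ring
    rw [this, min_eq_right (by norm_num), max_eq_right (by norm_num)]
  -- the map to the circle
  obtain ⟨u, hu⟩ : ∃ u : Sph → ℂ, ∀ x, u x = if x ∈ φ.source then
      Complex.exp (2 * Real.pi * Complex.I * t x) else 1 := ⟨_, fun _ => rfl⟩
  have huN : ∀ x, x ∉ N → u x = 1 := by
    intro x hx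
    rw [hu]
    by_cases h : x ∈ φ.source
    · rw [if_pos h]
      rw [hN] at hx
      by_cases h1 : ‖φ x‖ < s - δ
      · rw [ht0 x h1.le]; simp
      · have h2 : s + δ < ‖φ x‖ := by
          by_contra h3
          exact hx ⟨h, by linarith, by linarith⟩
        rw [ht1 x h2.le]
        simp [Complex.exp_two_pi_mul_I]
    · rw [if_neg h]
  have hucont : Continuous u := by
    rw [continuous_iff_continuousAt]
    intro x
    by_cases h : x ∈ φ.source
    · have h1 : ContinuousAt (fun x => Complex.exp (2 * Real.pi * Complex.I * t x)) x := by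
        have h2 := htc.continuousAt (hopen.mem_nhds h)
        fun_prop
      refine h1.congr ?_
      filter_upwards [hopen.mem_nhds h] with y hy
      rw [hu, if_pos hy]
    · have hxN : x ∉ N := by rw [hN]; exact fun h1 => h h1.1
      have hc1 : ContinuousAt (fun _ : Sph => (1 : ℂ)) x := continuousAt_const
      refine hc1.congr ?_
      filter_upwards [hNcl.isOpen_compl.mem_nhds hxN] with y hy
      exact (huN y hy).symm
  have hu0 : ∀ x, u x ≠ 0 := by
    intro x
    rw [hu]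
    split_ifs
    · exact Complex.exp_ne_zero _
    · exact one_ne_zero
  have hinfN : (∞ : Sph) ∉ N := by
    rw [hN]
    rintro ⟨h1, h2, h3⟩
    rcases hδ3 h1 with h4 | h4 <;> linarith
  obtain ⟨L, hL, hLu⟩ := exists_sphere_log hucont hu0 (by
    filter_upwards [hNcl.isOpen_compl.mem_nhds hinfN] with y hy
    exact huN y hy)
  -- the real valued version of `t`
  obtain ⟨b, hb⟩ : ∃ b : Sph → ℝ, ∀ x, b x = if x ∈ φ.source then
      (if ‖φ x‖ < s then t x else t x - 1) else 0 := ⟨_, fun _ => rfl⟩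
  have hbN : ∀ x, x ∉ N → b x = 0 := by
    intro x hx
    rw [hb]
    by_cases h : x ∈ φ.source
    · rw [if_pos h]
      rw [hN] at hx
      by_cases h1 : ‖φ x‖ < s - δ
      · rw [if_pos (by linarith), ht0 x h1.le]
      · have h2 : s + δ < ‖φ x‖ := by
          by_contra h3
          exact hx ⟨h, by linarith, by linarith⟩
        rw [if_neg (by linarith), ht1 x h2.le]
        ring
    · rw [if_neg h]
  have hbu : ∀ x, Complex.exp (2 * Real.pi * Complex.I * b x) = u x := by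
    intro x
    rw [hb, hu]
    by_cases h : x ∈ φ.source
    · rw [if_pos h, if_pos h]
      split_ifs
      · rfl
      · push_cast
        rw [mul_sub, Complex.exp_sub, mul_one, Complex.exp_two_pi_mul_I, div_one]
    · rw [if_neg h, if_neg h]; simp
  -- the locally constant function `κ`
  obtain ⟨κ, hκ⟩ : ∃ κ : Sph → ℂ, ∀ x, κ x = L x - 2 * Real.pi * Complex.I * b x :=
    ⟨_, fun _ => rfl⟩
  have hκ1 : ∀ x, Complex.exp (κ x) = 1 := by
    intro x
    rw [hκ, Complex.exp_sub, hLu, hbu, div_self (hu0 x)]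
  have hκc : ∀ x, ¬ (x ∈ φ.source ∧ ‖φ x‖ = s) → ContinuousAt κ x := by
    intro x hx
    have hbc : ContinuousAt b x := by
      by_cases h : x ∈ φ.source
      · have hns : ‖φ x‖ ≠ s := fun h1 => hx ⟨h, h1⟩
        have hφc : ContinuousAt (fun y => ‖φ y‖) x :=
          (φ.continuousOn.norm).continuousAt (hopen.mem_nhds h)
        have htcx := htc.continuousAt (hopen.mem_nhds h)
        rcases lt_or_gt_of_ne hns with h1 | h1
        · refine htcx.congr ?_
          filter_upwards [hopen.mem_nhds h, hφc.eventually (gt_mem_nhds h1)] with y hy hy2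
          rw [hb, if_pos hy, if_pos hy2]
        · have hc1 : ContinuousAt (fun y => t y - 1) x := htcx.sub continuousAt_const
          refine hc1.congr ?_
          filter_upwards [hopen.mem_nhds h, hφc.eventually (lt_mem_nhds h1)] with y hy hy2
          rw [hb, if_pos hy, if_neg (not_lt.2 hy2.le)]
      · have hxN : x ∉ N := by rw [hN]; exact fun h1 => h h1.1
        have hc0 : ContinuousAt (fun _ : Sph => (0 : ℝ)) x := continuousAt_const
        refine hc0.congr ?_
        filter_upwards [hNcl.isOpen_compl.mem_nhds hxN] with y hy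
        exact (hbN y hy).symm
    have : κ = fun x => L x - 2 * Real.pi * Complex.I * b x := funext hκ
    rw [this]
    have hLx := hL.continuousAt (x := x)
    fun_prop
  have hκloc : ∀ x, ¬ (x ∈ φ.source ∧ ‖φ x‖ = s) → ∀ᶠ y in 𝓝 x, κ y = κ x := by
    intro x hx
    have h1 := (hκc x hx).eventually (ball_mem_nhds (κ x) one_pos)
    filter_upwards [h1] with y hy
    exact eq_of_close (hκ1 y) (hκ1 x) hy
  have hγcl : IsClosed {x | x ∈ φ.source ∧ ‖φ x‖ = s} := by
    have : {x | x ∈ φ.source ∧ ‖φ x‖ = s} = N ∩ {x | x ∈ φ.source ∧ ‖φ x‖ = s} := by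
      rw [hN]; ext x; constructor
      · rintro ⟨h1, h2⟩; exact ⟨⟨h1, by linarith, by linarith⟩, h1, h2⟩
      · exact fun h => h.2
    rw [← isOpen_compl_iff, isOpen_iff_mem_nhds]
    intro x hx
    by_cases h : x ∈ φ.source
    · have hns : ‖φ x‖ ≠ s := fun h1 => hx ⟨h, h1⟩
      have hφc : ContinuousAt (fun y => ‖φ y‖) x :=
        (φ.continuousOn.norm).continuousAt (hopen.mem_nhds h)
      filter_upwards [hφc.eventually_ne hns] with y hy h2
      exact hy h2.2
    · have hxN : x ∉ N := by rw [hN]; exact fun h1 => h h1.1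
      filter_upwards [hNcl.isOpen_compl.mem_nhds hxN] with y hy h2
      rw [this] at h2
      exact hy h2.1
  -- constant on the inner and the outer part
  have hconn : ∀ I : Set ℝ, Convex ℝ I → (∀ x ∈ I, 1 < x ∧ x < r ∧ x ≠ s) →
      ∀ x ∈ φ.source, ∀ y ∈ φ.source, ‖φ x‖ ∈ I → ‖φ y‖ ∈ I → κ x = κ y := by
    intro I hI hI2 x hx y hy hxI hyI
    have h1 : IsPreconnected {z : ℂ | ‖z‖ ∈ I} :=
      isPreconnected_annulus I hI (fun x hx => by have := (hI2 x hx).1; linarith)
    have h2 : {z : ℂ | ‖z‖ ∈ I} ⊆ φ.target := by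
      intro z hz
      rw [htgt]
      exact ⟨(hI2 _ hz).1, (hI2 _ hz).2.1⟩
    have h3 := h1.image φ.symm (φ.symm.continuousOn.mono h2)
    have h4 : ContinuousOn κ (φ.symm '' {z : ℂ | ‖z‖ ∈ I}) := by
      rintro _ ⟨z, hz, rfl⟩
      apply ContinuousAt.continuousWithinAt
      apply hκc
      rintro ⟨-, h5⟩
      rw [φ.right_inv (h2 hz)] at h5
      exact (hI2 _ hz).2.2 h5
    exact h3.constant_of_mapsTo isDiscrete_periods h4 (fun x _ => hκ1 x)
      ⟨φ x, hxI, φ.left_inv hx⟩ ⟨φ y, hyI, φ.left_inv hy⟩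
  -- base points
  have hsT : ((s : ℝ) : ℂ) ∈ φ.target := by
    rw [htgt]
    constructor <;> rw [Complex.norm_real, Real.norm_eq_abs, abs_of_pos (by linarith)] <;>
      assumption
  obtain ⟨z0, hz0def⟩ : ∃ z0, z0 = φ.symm ((s : ℝ) : ℂ) := ⟨_, rfl⟩
  have hz0 : z0 ∈ φ.source := by rw [hz0def]; exact φ.map_target hsT
  have hφz0 : φ z0 = ((s : ℝ) : ℂ) := by rw [hz0def]; exact φ.right_inv hsT
  have hφz0n : ‖φ z0‖ = s := by
    rw [hφz0, Complex.norm_real, Real.norm_eq_abs, abs_of_pos (by linarith)]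
  have hcl : ∀ I : Set ℝ, s ∈ closure I → (∀ x ∈ I, 1 < x ∧ x < r) →
      z0 ∈ closure {x | x ∈ φ.source ∧ ‖φ x‖ ∈ I} := by
    intro I hI hI2
    have h1 : Continuous (fun x : ℝ => (x : ℂ)) := Complex.continuous_ofReal
    have h2 : ((s : ℝ) : ℂ) ∈ closure ((fun x : ℝ => (x : ℂ)) '' I) :=
      image_closure_subset_closure_image h1 ⟨s, hI, rfl⟩
    have h3 : ContinuousAt φ.symm ((s : ℝ) : ℂ) := φ.symm.continuousAt hsT
    have h4 := h3.continuousWithinAt.mem_closure_image h2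
    rw [← hz0def] at h4
    refine closure_mono ?_ h4
    rintro _ ⟨_, ⟨x, hx, rfl⟩, rfl⟩
    have hxT : ((x : ℝ) : ℂ) ∈ φ.target := by
      rw [htgt]
      have := hI2 x hx
      constructor <;> rw [Complex.norm_real, Real.norm_eq_abs, abs_of_pos (by linarith)]
      · exact this.1
      · exact this.2
    refine ⟨φ.map_target hxT, ?_⟩
    rw [φ.right_inv hxT, Complex.norm_real, Real.norm_eq_abs,
      abs_of_pos (by have := hI2 x hx; linarith)]
    exact hx
  -- inner and outer sample points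
  have hsample : ∀ a : ℝ, 1 < a → a < r → ∃ x ∈ φ.source, ‖φ x‖ = a := by
    intro a ha1 ha2
    have hxT : ((a : ℝ) : ℂ) ∈ φ.target := by
      rw [htgt]
      constructor <;> rw [Complex.norm_real, Real.norm_eq_abs, abs_of_pos (by linarith)] <;>
        assumption
    refine ⟨φ.symm a, φ.map_target hxT, ?_⟩
    rw [φ.right_inv hxT, Complex.norm_real, Real.norm_eq_abs, abs_of_pos (by linarith)]
  obtain ⟨xi, hxi, hxin⟩ := hsample ((1 + s) / 2) (by linarith) (by linarith)
  obtain ⟨xo, hxo, hxon⟩ := hsample ((s + r) / 2) (by linarith) (by linarith)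
  have hin : ∀ x ∈ φ.source, ‖φ x‖ < s → κ x = κ xi := by
    intro x hx hxs
    have hx1 : 1 < ‖φ x‖ := by
      have := φ.map_source hx
      rw [htgt] at this; exact this.1
    refine hconn (Ioo 1 s) (convex_Ioo _ _) ?_ x hx xi hxi ⟨hx1, hxs⟩ ?_
    · rintro y ⟨h1, h2⟩; exact ⟨h1, by linarith, h2.ne⟩
    · rw [hxin]; constructor <;> linarith
  have hout : ∀ x ∈ φ.source, s < ‖φ x‖ → κ x = κ xo := by
    intro x hx hxs
    have hx1 : ‖φ x‖ < r := by
      have := φ.map_source hx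
      rw [htgt] at this; exact this.2
    refine hconn (Ioo s r) (convex_Ioo _ _) ?_ x hx xo hxo ⟨hxs, hx1⟩ ?_
    · rintro y ⟨h1, h2⟩; exact ⟨by linarith, h2, h1.ne'⟩
    · rw [hxon]; constructor <;> linarith
  -- the jump
  have hval : ∀ (c d : ℂ) (I : Set ℝ), s ∈ closure I → (∀ x ∈ I, 1 < x ∧ x < r) →
      (∀ x ∈ φ.source, ‖φ x‖ ∈ I → L x - 2 * Real.pi * Complex.I * (t x - d) = c) →
      L z0 - 2 * Real.pi * Complex.I * (1 / 2 - d) = c := by
    intro c d I hI hI2 h
    have h1 : ContinuousAt (fun x => L x - 2 * Real.pi * Complex.I * (t x - d)) z0 := by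
      have h2 := htc.continuousAt (hopen.mem_nhds hz0)
      have hLx := hL.continuousAt (x := z0)
      fun_prop
    have h3 := h1.continuousWithinAt.mem_closure_image (hcl I hI hI2)
    have h4 : (fun x => L x - 2 * Real.pi * Complex.I * (t x - d)) ''
        {x | x ∈ φ.source ∧ ‖φ x‖ ∈ I} ⊆ {c} := by
      rintro _ ⟨x, ⟨hx1, hx2⟩, rfl⟩
      exact h x hx1 hx2
    have h5 := closure_mono h4 h3
    rw [closure_singleton, mem_singleton_iff, hthalf z0 hφz0n] at h5
    rw [← h5]; push_cast; ring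
  have hjump : κ xo ≠ κ xi := by
    have e1 := hval (κ xi) 0 (Ioo 1 s) (by
      rw [closure_Ioo hs1.ne]; exact ⟨hs1.le, le_rfl⟩) (fun x hx => ⟨hx.1, by
        have := hx.2; linarith⟩) (fun x hx hxI => by
        rw [← hin x hx hxI.2, hκ, hb, if_pos hx, if_pos hxI.2]; ring)
    have e2 := hval (κ xo) 1 (Ioo s r) (by
      rw [closure_Ioo hsr.ne]; exact ⟨le_rfl, hsr.le⟩) (fun x hx => ⟨by
        have := hx.1; linarith, hx.2⟩) (fun x hx hxI => by
        rw [← hout x hx hxI.1, hκ, hb, if_pos hx, if_neg (not_lt.2 hxI.1.le)]; push_cast; ring)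
    rw [← e1, ← e2]
    intro h
    have h1 : (2 * Real.pi * Complex.I : ℂ) = 0 := by linear_combination h
    exact Complex.two_pi_I_ne_zero h1
  -- conclusion
  refine ⟨{x | ¬ (x ∈ φ.source ∧ ‖φ x‖ = s) ∧ κ x = κ xi}, ?_, ?_, fun x hx => hx.1, ?_, ?_⟩
  · rw [isOpen_iff_mem_nhds]
    rintro x ⟨hx1, hx2⟩
    filter_upwards [hκloc x hx1, hγcl.isOpen_compl.mem_nhds hx1] with y hy1 hy2
    exact ⟨hy2, hy1.trans hx2⟩
  · rw [isOpen_iff_mem_nhds]
    rintro x ⟨hx1, hx2⟩
    filter_upwards [hκloc x hx1, hγcl.isOpen_compl.mem_nhds hx1] with y hy1 hy2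
    refine ⟨hy2, fun h => hx2 ⟨hx1, ?_⟩⟩
    rw [← hy1]; exact h.2
  · intro x hx hxs
    exact ⟨fun h => hxs.ne h.2, hin x hx hxs⟩
  · rintro x hx hxs ⟨-, h⟩
    exact hjump ((hout x hx hxs).symm.trans h)

end Pool.Agent.Work.MP_cf3138_an
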