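import Pool.Agent.Work.MP_cf3138_an.Montel
import Pool.Agent.Work.MP_cf3138_an.Sep

/-!
The dynamical part: invariance of the Fatou set, the onto property of the two pieces of the
Julia set, itineraries.
-/

open Set Filter Topology OnePoint

namespace Pool.Agent.Work.MP_cf3138_an

/-- Equicontinuity of the iterates at a point. -/
def EqAt (f : Sph → Sph) (z : Sph) : Prop :=
  ∀ V ∈ 𝓝ˢ (diagonal Sph), ∀ᶠ w in 𝓝 z, ∀ n : ℕ, (f^[n] z, f^[n] w) ∈ V

/-- The interior of the set of equicontinuity points. -/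
def eqFatou (f : Sph → Sph) : Set Sph := interior {z | EqAt f z}

lemma diag_mem {V : Set (Sph × Sph)} (hV : V ∈ 𝓝ˢ (diagonal Sph)) (z : Sph) :
    ∀ᶠ w in 𝓝 z, (z, w) ∈ V := by
  have h1 : V ∈ 𝓝 (z, z) := nhds_le_nhdsSet (mem_diagonal z) hV
  have h2 : Tendsto (fun w : Sph => (z, w)) (𝓝 z) (𝓝 (z, z)) := by
    rw [nhds_prod_eq]
    exact tendsto_const_nhds.prodMk tendsto_id
  exact h2 h1

lemma EqAt.of_image {f : Sph → Sph} (hf : Continuous f) {z : Sph} (h : EqAt f (f z)) :
    EqAt f z := by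
  intro V hV
  have h1 := hf.continuousAt.eventually (h V hV)
  filter_upwards [h1, diag_mem hV z] with w hw1 hw2 n
  cases n with
  | zero => exact hw2
  | succ n => exact hw1 n

lemma EqAt.image {f : Sph → Sph} (hf : IsOpenMap f) {z : Sph} (h : EqAt f z) :
    EqAt f (f z) := by
  intro V hV
  apply hf.nhds_le z
  rw [Filter.mem_map]
  filter_upwards [h V hV] with w hw n
  exact hw (n + 1)

lemma mem_eqFatou {f : Sph → Sph} {z : Sph} : z ∈ eqFatou f ↔ ∀ᶠ w in 𝓝 z, EqAt f w :=
  mem_interior_iff_mem_nhds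

lemma eqFatou_iff {f : Sph → Sph} (hf : Continuous f) (hfo : IsOpenMap f) (z : Sph) :
    f z ∈ eqFatou f ↔ z ∈ eqFatou f := by
  rw [mem_eqFatou, mem_eqFatou]
  constructor
  · intro h
    filter_upwards [hf.continuousAt.eventually h] with w hw
    exact hw.of_image hf
  · intro h
    apply hfo.nhds_le z
    rw [Filter.mem_map]
    filter_upwards [h] with w hw
    exact hw.image hfo

lemma eqFatou_iff_iterate {f : Sph → Sph} (hf : Continuous f) (hfo : IsOpenMap f) (n : ℕ)
    (z : Sph) : f^[n] z ∈ eqFatou f ↔ z ∈ eqFatou f := by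
  induction n with
  | zero => rfl
  | succ n ih => rw [Function.iterate_succ_apply', eqFatou_iff hf hfo, ih]

/-- Equicontinuity of the iterates of `f^[p]` implies that of the iterates of `f`. -/
lemma eqAt_of_iterate {f : Sph → Sph} (hf : Continuous f) {p : ℕ} (hp : 0 < p) {z : Sph}
    (h : EqAt (f^[p]) z) : EqAt f z := by
  intro V hV
  let _ : UniformSpace Sph := uniformSpaceOfCompactR1
  have hV' : V ∈ uniformity Sph := hV
  have h1 : ∀ i : ℕ, {q : Sph × Sph | (f^[i] q.1, f^[i] q.2) ∈ V} ∈ uniformity Sph := by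
    intro i
    exact CompactSpace.uniformContinuous_of_continuous (hf.iterate i) hV'
  have h2 : (⋂ i ∈ Finset.range p, {q : Sph × Sph | (f^[i] q.1, f^[i] q.2) ∈ V}) ∈
      uniformity Sph := by
    rw [Filter.biInter_finset_mem]
    exact fun i _ => h1 i
  filter_upwards [h _ h2] with w hw n
  have h3 := hw (n / p)
  simp only [mem_iInter] at h3
  have h4 := h3 (n % p) (Finset.mem_range.2 (Nat.mod_lt _ hp))
  have h5 : ∀ x, f^[n % p] ((f^[p])^[n / p] x) = f^[n] x := by
    intro x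
    rw [← Function.iterate_mul, ← Function.iterate_add_apply]
    congr 2
    exact Nat.mod_add_div n p
  simpa only [h5, mem_ofPred_eq] using h4

/-! ### Covering dichotomy -/

lemma cover_dichotomy {g : Sph → Sph} (hg : Continuous g) (hgo : IsOpenMap g)
    {D D' γ : Set Sph} (hD : IsOpen D) (hD' : IsOpen D') (hdisj : Disjoint D D')
    (hcov : D ∪ D' = γᶜ) (hDc : IsPreconnected D) (hD'c : IsPreconnected D')
    (hγ : MapsTo g γ γ) (hcl : γ ⊆ closure D') (hx : ∃ x ∈ D, g x ∈ D) :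
    γᶜ ⊆ g '' D ∨ MapsTo g D D := by
  have hK : IsClosed (g '' D'ᶜ) := (hD'.isClosed_compl.isCompact.image hg).isClosed
  have hDc' : D'ᶜ = D ∪ γ := by
    ext x
    constructor
    · intro h
      by_cases hxγ : x ∈ γ
      · exact Or.inr hxγ
      · have : x ∈ D ∪ D' := by rw [hcov]; exact hxγ
        rcases this with h1 | h1
        · exact Or.inl h1
        · exact absurd h1 h
    · rintro (h | h) h1
      · exact (disjoint_left.1 hdisj) h h1
      · have : x ∈ D ∪ D' := Or.inr h1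
        rw [hcov] at this
        exact this h
  have hA : IsOpen (g '' D) := hgo _ hD
  have hB : IsOpen (g '' D'ᶜ)ᶜ := hK.isOpen_compl
  have hAB : Disjoint (g '' D) (g '' D'ᶜ)ᶜ := by
    rw [disjoint_left]
    rintro _ ⟨x, hx, rfl⟩ h
    exact h ⟨x, by rw [hDc']; exact Or.inl hx, rfl⟩
  have hcovAB : γᶜ ⊆ g '' D ∪ (g '' D'ᶜ)ᶜ := by
    intro y hy
    by_cases h : y ∈ g '' D'ᶜ
    · rw [hDc', image_union] at h
      rcases h with h | ⟨x, hx, rfl⟩
      · exact Or.inl h
      · exact absurd (hγ hx) hy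
    · exact Or.inr h
  have hDsub : D ⊆ γᶜ := by rw [← hcov]; exact subset_union_left
  have hD'sub : D' ⊆ γᶜ := by rw [← hcov]; exact subset_union_right
  obtain ⟨x, hxD, hgx⟩ := hx
  have h1 : D ⊆ g '' D :=
    hDc.subset_left_of_subset_union hA hB hAB (hDsub.trans hcovAB) ⟨g x, hgx, x, hxD, rfl⟩
  by_cases h2 : (D' ∩ g '' D).Nonempty
  · left
    have h3 : D' ⊆ g '' D :=
      hD'c.subset_left_of_subset_union hA hB hAB (hD'sub.trans hcovAB) h2
    rw [← hcov]
    exact union_subset h1 h3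
  · right
    intro y hy
    have h3 : g y ∉ D' := fun h => h2 ⟨g y, h, y, hy, rfl⟩
    have h4 : g y ∉ γ := by
      intro h
      have h5 := mem_closure_iff.1 (hcl h) (g '' D) hA ⟨y, hy, rfl⟩
      obtain ⟨z, hz1, hz2⟩ := h5
      exact h2 ⟨z, hz2, hz1⟩
    have h5 : g y ∈ D ∪ D' := by rw [hcov]; exact h4
    exact h5.resolve_right h3

/-! ### Itineraries -/

lemma exists_itinerary {g : Sph → Sph} (hg : Continuous g) {X₀ X₁ J : Set Sph}
    (h0 : IsClosed X₀) (h1 : IsClosed X₁) (hX0 : X₀ ⊆ J) (hX1 : X₁ ⊆ J) (hJ : J ⊆ g '' X₀)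
    (hJ' : J ⊆ g '' X₁) (hne : J.Nonempty) (ω : ℕ → Prop) :
    ∃ x ∈ J, ∀ n : ℕ, (ω n → g^[n] x ∈ X₀) ∧ (¬ ω n → g^[n] x ∈ X₁) := by
  classical
  -- the finite stages
  have hfin : ∀ (m : ℕ) (ω : ℕ → Prop), ∃ x ∈ J, ∀ n < m,
      (ω n → g^[n] x ∈ X₀) ∧ (¬ ω n → g^[n] x ∈ X₁) := by
    intro m
    induction m with
    | zero => intro ω; obtain ⟨x, hx⟩ := hne; exact ⟨x, hx, fun n hn => absurd hn (Nat.not_lt_zero n)⟩
    | succ m ih =>
      intro ω
      obtain ⟨y, hy, hy2⟩ := ih (fun n => ω (n + 1))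
      by_cases hω : ω 0
      · obtain ⟨x, hx, rfl⟩ := hJ hy
        refine ⟨x, hX0 hx, fun n hn => ?_⟩
        cases n with
        | zero => exact ⟨fun _ => hx, fun h => absurd hω h⟩
        | succ n => exact hy2 n (by omega)
      · obtain ⟨x, hx, rfl⟩ := hJ' hy
        refine ⟨x, hX1 hx, fun n hn => ?_⟩
        cases n with
        | zero => exact ⟨fun h => absurd h hω, fun _ => hx⟩
        | succ n => exact hy2 n (by omega)
  -- compactness
  let Y : ℕ → Set Sph := fun n => if ω n then X₀ else X₁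
  have hY : ∀ n, IsClosed (Y n) := by
    intro n; simp only [Y]; split_ifs <;> assumption
  have hYJ : ∀ n, Y n ⊆ J := by
    intro n; simp only [Y]; split_ifs <;> assumption
  let K : ℕ → Set Sph := fun m => ⋂ n ∈ Finset.range (m + 1), g^[n] ⁻¹' (Y n)
  have hKcl : ∀ m, IsClosed (K m) := fun m =>
    isClosed_biInter fun n _ => (hY n).preimage (hg.iterate n)
  have hKanti : ∀ m, K (m + 1) ⊆ K m := by
    intro m x hx
    simp only [K, mem_iInter, Finset.mem_range] at hx ⊢
    intro n hn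
    exact hx n (by omega)
  have hKne : ∀ m, (K m).Nonempty := by
    intro m
    obtain ⟨x, hx, hx2⟩ := hfin (m + 1) ω
    refine ⟨x, ?_⟩
    simp only [K, mem_iInter, Finset.mem_range, mem_preimage, Y]
    intro n hn
    by_cases hω : ω n
    · rw [if_pos hω]; exact (hx2 n hn).1 hω
    · rw [if_neg hω]; exact (hx2 n hn).2 hω
  obtain ⟨x, hx⟩ := IsCompact.nonempty_iInter_of_sequence_nonempty_isCompact_isClosed K hKanti
    hKne (hKcl 0).isCompact hKcl
  have hx2 : ∀ n, g^[n] x ∈ Y n := by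
    intro n
    have h2 := mem_iInter.1 hx n
    simp only [K, mem_iInter, Finset.mem_range, mem_preimage] at h2
    exact h2 n (by omega)
  refine ⟨x, hYJ 0 (hx2 0), fun n => ⟨fun hω => ?_, fun hω => ?_⟩⟩
  · have h2 := hx2 n; simp only [Y, if_pos hω] at h2; exact h2
  · have h2 := hx2 n; simp only [Y, if_neg hω] at h2; exact h2

end Pool.Agent.Work.MP_cf3138_an
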