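import Pool.Agent.Work.MP_cf3138_an.Dyn

/-!
Assembly: a rotation annulus forces a buried Julia component.
-/

open Set Filter Topology OnePoint TopologicalSpace

namespace Pool.Agent.Work.MP_cf3138_an

/-- The data of a rotation annulus for `g`. -/
structure Ring (g : Sph → Sph) (φ : OpenPartialHomeomorph Sph ℂ) (r : ℝ) : Prop where
  hr : 1 < r
  tgt : φ.target = {z | 1 < ‖z‖ ∧ ‖z‖ < r}
  maps : MapsTo g φ.source φ.source
  norm : ∀ x ∈ φ.source, ‖φ (g x)‖ = ‖φ x‖

/-- The circle of radius `s`. -/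
def circ (φ : OpenPartialHomeomorph Sph ℂ) (s : ℝ) : Set Sph := {x | x ∈ φ.source ∧ ‖φ x‖ = s}

/-- The part of the ring with modulus in `I`. -/
def part (φ : OpenPartialHomeomorph Sph ℂ) (I : Set ℝ) : Set Sph :=
  {x | x ∈ φ.source ∧ ‖φ x‖ ∈ I}

section ring

variable {g : Sph → Sph} {φ : OpenPartialHomeomorph Sph ℂ} {r s : ℝ}

lemma Ring.exists_norm (h : Ring g φ r) {a : ℝ} (ha1 : 1 < a) (ha2 : a < r) :
    ∃ x ∈ φ.source, ‖φ x‖ = a := by
  have hxT : ((a : ℝ) : ℂ) ∈ φ.target := by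
    rw [h.tgt]
    constructor <;> rw [Complex.norm_real, Real.norm_eq_abs, abs_of_pos (by linarith)] <;>
      assumption
  refine ⟨φ.symm a, φ.map_target hxT, ?_⟩
  rw [φ.right_inv hxT, Complex.norm_real, Real.norm_eq_abs, abs_of_pos (by linarith)]

lemma Ring.norm_mem (h : Ring g φ r) {x : Sph} (hx : x ∈ φ.source) : 1 < ‖φ x‖ ∧ ‖φ x‖ < r := by
  have := φ.map_source hx
  rw [h.tgt] at this
  exact this

lemma Ring.part_preconnected (h : Ring g φ r) {I : Set ℝ} (hI : Convex ℝ I)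
    (hI2 : I ⊆ Ioo 1 r) : IsPreconnected (part φ I) := by
  have h1 : IsPreconnected {z : ℂ | ‖z‖ ∈ I} :=
    isPreconnected_annulus I hI (fun x hx => by have := (hI2 hx).1; linarith)
  have h2 : {z : ℂ | ‖z‖ ∈ I} ⊆ φ.target := by
    intro z hz
    rw [h.tgt]
    exact ⟨(hI2 hz).1, (hI2 hz).2⟩
  have h3 := h1.image φ.symm (φ.symm.continuousOn.mono h2)
  convert h3 using 1
  ext x
  constructor
  · rintro ⟨h4, h5⟩
    exact ⟨φ x, h5, φ.left_inv h4⟩
  · rintro ⟨z, hz, rfl⟩
    refine ⟨φ.map_target (h2 hz), ?_⟩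
    rw [φ.right_inv (h2 hz)]; exact hz

lemma Ring.mem_closure_part (h : Ring g φ r) {I : Set ℝ} (hI : I ⊆ Ioo 1 r)
    (hs : s ∈ closure I) (hs0 : 0 < s) {y : Sph} (hy : y ∈ circ φ s) : y ∈ closure (part φ I) := by
  obtain ⟨hy1, hy2⟩ := hy
  -- the ray through `φ y`
  have h1 : Continuous (fun a : ℝ => ((a / s : ℝ) : ℂ) * φ y) := by fun_prop
  have h2 : φ y ∈ closure ((fun a : ℝ => ((a / s : ℝ) : ℂ) * φ y) '' I) := by
    have := image_closure_subset_closure_image h1 ⟨s, hs, rfl⟩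
    simpa [div_self hs0.ne'] using this
  have h3 : ContinuousAt φ.symm (φ y) := φ.symm.continuousAt (φ.map_source hy1)
  have h4 := h3.continuousWithinAt.mem_closure_image h2
  rw [φ.left_inv hy1] at h4
  refine closure_mono ?_ h4
  rintro _ ⟨_, ⟨a, ha, rfl⟩, rfl⟩
  have ha1 := hI ha
  have hn : ‖((a / s : ℝ) : ℂ) * φ y‖ = a := by
    rw [norm_mul, hy2, Complex.norm_real, Real.norm_eq_abs,
      abs_of_pos (div_pos (by have := ha1.1; linarith) hs0)]
    field_simp
  have hT : ((a / s : ℝ) : ℂ) * φ y ∈ φ.target := by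
    rw [h.tgt]
    show 1 < ‖((a / s : ℝ) : ℂ) * φ y‖ ∧ ‖((a / s : ℝ) : ℂ) * φ y‖ < r
    rw [hn]; exact ha1
  refine ⟨φ.map_target hT, ?_⟩
  rw [φ.right_inv hT, hn]
  exact ha

lemma isClosed_circ (h : Ring g φ r) (hs1 : 1 < s) (hsr : s < r) : IsClosed (circ φ s) := by
  have h1 : IsCompact {z : ℂ | ‖z‖ = s} := by
    refine (ProperSpace.isCompact_closedBall (0 : ℂ) s).of_isClosed_subset ?_ ?_
    · exact isClosed_eq continuous_norm continuous_const
    · intro z hz; simpa using le_of_eq hz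
  have h2 : {z : ℂ | ‖z‖ = s} ⊆ φ.target := by
    intro z hz
    rw [h.tgt]
    have hz' : ‖z‖ = s := hz
    exact ⟨by linarith, by linarith⟩
  have h3 : IsCompact (φ.symm '' {z : ℂ | ‖z‖ = s}) :=
    h1.image_of_continuousOn (φ.symm.continuousOn.mono h2)
  have h4 : circ φ s = φ.symm '' {z : ℂ | ‖z‖ = s} := by
    ext x
    constructor
    · rintro ⟨h5, h6⟩
      exact ⟨φ x, h6, φ.left_inv h5⟩
    · rintro ⟨z, hz, rfl⟩
      refine ⟨φ.map_target (h2 hz), ?_⟩
      rw [φ.right_inv (h2 hz)]; exact hz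
  rw [h4]; exact h3.isClosed

/-- The two sides of the circle. -/
theorem exists_sides (h : Ring g φ r) (hs1 : 1 < s) (hsr : s < r)
    (hinf : ∞ ∈ φ.source → ‖φ ∞‖ ≠ s) :
    ∃ Di Do : Set Sph, IsOpen Di ∧ IsOpen Do ∧ Disjoint Di Do ∧ Di ∪ Do = (circ φ s)ᶜ ∧
      IsPreconnected Di ∧ IsPreconnected Do ∧ part φ (Ioo 1 s) ⊆ Di ∧ part φ (Ioo s r) ⊆ Do := by
  obtain ⟨D, hDo, hDo', hDγ, hDi, hDout⟩ := separation φ hs1 hsr h.tgt hinf
  obtain ⟨xi, hxi, hxin⟩ := h.exists_norm (a := (1 + s) / 2) (by linarith) (by linarith)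
  obtain ⟨xo, hxo, hxon⟩ := h.exists_norm (a := (s + r) / 2) (by linarith) (by linarith)
  have hpi : part φ (Ioo 1 s) ⊆ (circ φ s)ᶜ := fun x hx h1 => hx.2.2.ne h1.2
  have hpo : part φ (Ioo s r) ⊆ (circ φ s)ᶜ := fun x hx h1 => hx.2.1.ne' h1.2
  have hxi' : xi ∈ part φ (Ioo 1 s) := ⟨hxi, by rw [hxin]; constructor <;> linarith⟩
  have hxo' : xo ∈ part φ (Ioo s r) := ⟨hxo, by rw [hxon]; constructor <;> linarith⟩
  have hci : IsPreconnected (part φ (Ioo 1 s)) :=
    h.part_preconnected (convex_Ioo _ _) (fun x hx => ⟨hx.1, hx.2.trans hsr⟩)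
  have hco : IsPreconnected (part φ (Ioo s r)) :=
    h.part_preconnected (convex_Ioo _ _) (fun x hx => ⟨hs1.trans hx.1, hx.2⟩)
  have hopen : IsOpen (circ φ s)ᶜ := (isClosed_circ h hs1 hsr).isOpen_compl
  have hi := hci.subset_connectedComponentIn hxi' hpi
  have ho := hco.subset_connectedComponentIn hxo' hpo
  refine ⟨connectedComponentIn (circ φ s)ᶜ xi, connectedComponentIn (circ φ s)ᶜ xo,
    hopen.connectedComponentIn, hopen.connectedComponentIn, ?_, ?_,
    isPreconnected_connectedComponentIn, isPreconnected_connectedComponentIn, hi, ho⟩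
  · -- disjoint
    rw [disjoint_left]
    intro y hy1 hy2
    have e1 := connectedComponentIn_eq hy1
    have e2 := connectedComponentIn_eq hy2
    have h1 : xo ∈ connectedComponentIn (circ φ s)ᶜ xi := by
      rw [e1, ← e2]; exact mem_connectedComponentIn (hpo hxo')
    have h2 : connectedComponentIn (circ φ s)ᶜ xi ⊆ D := by
      refine isPreconnected_connectedComponentIn.subset_left_of_subset_union hDo hDo' ?_ ?_ ?_
      · rw [disjoint_left]; exact fun x hx h3 => h3.2 hx
      · intro x hx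
        have hx2 := connectedComponentIn_subset _ _ hx
        by_cases hxD : x ∈ D
        · exact Or.inl hxD
        · exact Or.inr ⟨hx2, hxD⟩
      · exact ⟨xi, mem_connectedComponentIn (hpi hxi'), hDi xi hxi (by rw [hxin]; linarith)⟩
    exact hDout xo hxo (by rw [hxon]; linarith) (h2 h1)
  · -- cover
    apply Subset.antisymm
    · exact union_subset (connectedComponentIn_subset _ _) (connectedComponentIn_subset _ _)
    intro x hx
    obtain ⟨C, hC⟩ : ∃ C, C = connectedComponentIn (circ φ s)ᶜ x := ⟨_, rfl⟩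
    have hCo : IsOpen C := by rw [hC]; exact hopen.connectedComponentIn
    have hxC : x ∈ C := by rw [hC]; exact mem_connectedComponentIn hx
    have hCsub : C ⊆ (circ φ s)ᶜ := by rw [hC]; exact connectedComponentIn_subset _ _
    have hCpre : IsPreconnected C := by rw [hC]; exact isPreconnected_connectedComponentIn
    -- the closure meets the circle
    have hmeet : ∃ y ∈ circ φ s, y ∈ closure C := by
      by_contra hcon
      push Not at hcon
      have h1 : closure C ⊆ C := by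
        have h2 : closure C ⊆ (circ φ s)ᶜ := fun y hy1 hy2 => hcon y hy2 hy1
        have h3 := hCpre.closure.subset_connectedComponentIn (subset_closure hxC) h2
        rw [← hC] at h3; exact h3
      have h4 : IsClopen C := ⟨isClosed_of_closure_subset h1, hCo⟩
      have h5 := h4.eq_univ ⟨x, hxC⟩
      obtain ⟨z, hz1, hz2⟩ := h.exists_norm hs1 hsr
      have h6 : z ∈ C := by rw [h5]; exact mem_univ z
      exact hCsub h6 ⟨hz1, hz2⟩
    obtain ⟨y, hy, hyC⟩ := hmeet
    obtain ⟨z, hz1, hz2⟩ := mem_closure_iff.1 hyC φ.source φ.open_source hy.1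
    have hzγ : ‖φ z‖ ≠ s := fun h1 => hCsub hz2 ⟨hz1, h1⟩
    have hzn := h.norm_mem hz1
    have hzx : connectedComponentIn (circ φ s)ᶜ z = connectedComponentIn (circ φ s)ᶜ x := by
      rw [hC] at hz2; exact (connectedComponentIn_eq hz2).symm
    rcases lt_or_gt_of_ne hzγ with h1 | h1
    · left
      have h2 : z ∈ connectedComponentIn (circ φ s)ᶜ xi := hi ⟨hz1, hzn.1, h1⟩
      rw [connectedComponentIn_eq h2, hzx]
      exact mem_connectedComponentIn hx
    · right
      have h2 : z ∈ connectedComponentIn (circ φ s)ᶜ xo := ho ⟨hz1, h1, hzn.2⟩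
      rw [connectedComponentIn_eq h2, hzx]
      exact mem_connectedComponentIn hx

end ring

/-- Fatou components, for the equicontinuity version of the Fatou set. -/
def IsComp (F U : Set Sph) : Prop := ∃ z ∈ F, U = connectedComponentIn F z

lemma countable_components {F : Set Sph} (hF : IsOpen F) : {U | IsComp F U}.Countable := by
  have hsep : SeparableSpace Sph := by
    obtain ⟨D, hD1, hD2⟩ := exists_countable_dense ℂ
    refine ⟨(↑) '' D, hD1.image _, ?_⟩
    exact (OnePoint.denseRange_coe (X := ℂ)).dense_image OnePoint.continuous_coe hD2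
  refine Set.PairwiseDisjoint.countable_of_isOpen (s := id) ?_ ?_ ?_
  · rintro U ⟨x, hx, rfl⟩ V ⟨y, hy, rfl⟩ hne
    show Disjoint _ _
    rw [disjoint_left]
    intro z hz1 hz2
    apply hne
    have hz1' : z ∈ connectedComponentIn F x := hz1
    have hz2' : z ∈ connectedComponentIn F y := hz2
    rw [connectedComponentIn_eq hz1', connectedComponentIn_eq hz2']
  · rintro U ⟨x, hx, rfl⟩
    exact hF.connectedComponentIn
  · rintro U ⟨x, hx, rfl⟩
    exact ⟨x, mem_connectedComponentIn hx⟩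

/-- One side of an invariant circle cannot be mapped into itself. -/
lemma not_mapsTo_side {f : Sph → Sph} (hf : Continuous f) (hol : Hol f) {p : ℕ} (hp : 0 < p)
    {D D' : Set Sph} (hD : IsOpen D) (hD' : IsOpen D') (hD'ne : D'.Nonempty)
    (hdisj : Disjoint D D') (hm : MapsTo (f^[p]) D D) : D ⊆ eqFatou f := by
  have hiter : ∀ n : ℕ, Hol ((f^[p])^[n]) := by
    have h1 : ∀ n : ℕ, Hol (f^[n]) := by
      intro n
      induction n with
      | zero =>
        have e : f^[0] = ratMap Polynomial.X 1 := by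
          funext x
          induction x using OnePoint.rec with
          | infty => rw [ratMap_infty, if_pos (by simp)]; rfl
          | coe z => rw [ratMap_coe, if_neg (by simp)]; simp
        rw [e]
        apply Good.hol
        exact ⟨Polynomial.X_ne_zero, one_ne_zero, fun z h1 h2 => by simp at h2⟩
      | succ n ih => rw [Function.iterate_succ']; exact hol.comp ih
    intro n
    rw [← Function.iterate_mul]
    exact h1 _
  apply interior_maximal _ hD
  intro x hx
  apply eqAt_of_iterate hf hp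
  intro V hV
  refine equicont_of_omit hiter hD hD' hD'ne ?_ hx hV
  intro n y hy h
  exact (disjoint_left.1 hdisj) (hm.iterate n hy) h

theorem buried {f : Sph → Sph} (hf : Continuous f) (hfo : IsOpenMap f) (hol : Hol f)
    {p : ℕ} (hp : 0 < p) {φ : OpenPartialHomeomorph Sph ℂ} {r : ℝ}
    (hring : Ring (f^[p]) φ r) (hH : IsComp (eqFatou f) φ.source) :
    ∃ K, IsComp (eqFatou f)ᶜ K ∧ ∀ U, IsComp (eqFatou f) U → Disjoint K (frontier U) := by
  obtain ⟨g, hg⟩ : ∃ g, g = f^[p] := ⟨_, rfl⟩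
  have hgc : Continuous g := by rw [hg]; exact hf.iterate p
  have hgo : IsOpenMap g := by
    rw [hg]
    have h1 : ∀ n : ℕ, IsOpenMap (f^[n]) := by
      intro n
      induction n with
      | zero => exact IsOpenMap.id
      | succ n ih => rw [Function.iterate_succ']; exact hfo.comp ih
    exact h1 p
  obtain ⟨F, hF⟩ : ∃ F, F = eqFatou f := ⟨_, rfl⟩
  have hFo : IsOpen F := by rw [hF]; exact isOpen_interior
  have hFg : ∀ z, g z ∈ F ↔ z ∈ F := by
    intro z; rw [hg, hF]; exact eqFatou_iff_iterate hf hfo p z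
  rw [← hF] at hH ⊢
  have hring' := hring
  rw [← hg] at hring'
  have hr := hring.hr
  -- the component property of the ring
  have hHF : φ.source ⊆ F := by
    obtain ⟨z, hz, e⟩ := hH
    rw [e]; exact connectedComponentIn_subset _ _
  have hHmax : ∀ A : Set Sph, IsPreconnected A → A ⊆ F → (A ∩ φ.source).Nonempty →
      A ⊆ φ.source := by
    obtain ⟨z, hz, e⟩ := hH
    rintro A hA hAF ⟨y, hyA, hy⟩
    rw [e] at hy ⊢
    rw [connectedComponentIn_eq hy]
    exact hA.subset_connectedComponentIn hyA hAF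
  -- choose the radius
  obtain ⟨s, hs1, hsr, hsinf⟩ : ∃ s, 1 < s ∧ s < r ∧ (∞ ∈ φ.source → ‖φ ∞‖ ≠ s) := by
    by_cases h : ‖φ ∞‖ = (1 + r) / 2
    · refine ⟨(1 + (1 + r) / 2) / 2, by linarith, by linarith, fun _ h1 => ?_⟩
      rw [h] at h1; linarith
    · exact ⟨(1 + r) / 2, by linarith, by linarith, fun _ => h⟩
  obtain ⟨Di, Do, hDi, hDo, hdisj, hcov, hDic, hDoc, hpi, hpo⟩ :=
    exists_sides hring' hs1 hsr hsinf
  have hIi : Ioo 1 s ⊆ Ioo 1 r := fun x hx => ⟨hx.1, hx.2.trans hsr⟩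
  have hIo : Ioo s r ⊆ Ioo 1 r := fun x hx => ⟨hs1.trans hx.1, hx.2⟩
  have hcli : circ φ s ⊆ closure Di := fun y hy =>
    closure_mono hpi (hring'.mem_closure_part hIi (by
      rw [closure_Ioo hs1.ne]; exact ⟨hs1.le, le_rfl⟩) (by linarith) hy)
  have hclo : circ φ s ⊆ closure Do := fun y hy =>
    closure_mono hpo (hring'.mem_closure_part hIo (by
      rw [closure_Ioo hsr.ne]; exact ⟨le_rfl, hsr.le⟩) (by linarith) hy)
  have hγ : MapsTo g (circ φ s) (circ φ s) := fun x hx =>
    ⟨hring'.maps hx.1, by rw [hring'.norm x hx.1]; exact hx.2⟩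
  have hgpi : ∀ x ∈ part φ (Ioo 1 s), g x ∈ part φ (Ioo 1 s) := fun x hx =>
    ⟨hring'.maps hx.1, by rw [hring'.norm x hx.1]; exact hx.2⟩
  have hgpo : ∀ x ∈ part φ (Ioo s r), g x ∈ part φ (Ioo s r) := fun x hx =>
    ⟨hring'.maps hx.1, by rw [hring'.norm x hx.1]; exact hx.2⟩
  obtain ⟨xi, hxi, hxin⟩ := hring'.exists_norm (a := (1 + s) / 2) (by linarith) (by linarith)
  obtain ⟨xo, hxo, hxon⟩ := hring'.exists_norm (a := (s + r) / 2) (by linarith) (by linarith)
  have hxi' : xi ∈ part φ (Ioo 1 s) := ⟨hxi, by rw [hxin]; constructor <;> linarith⟩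
  have hxo' : xo ∈ part φ (Ioo s r) := ⟨hxo, by rw [hxon]; constructor <;> linarith⟩
  have hDic' : Doᶜ = Di ∪ circ φ s := by
    ext x
    constructor
    · intro h
      by_cases hx : x ∈ circ φ s
      · exact Or.inr hx
      · have : x ∈ Di ∪ Do := by rw [hcov]; exact hx
        exact Or.inl (this.resolve_right h)
    · rintro (h | h) h1
      · exact (disjoint_left.1 hdisj) h h1
      · have : x ∈ Di ∪ Do := Or.inr h1
        rw [hcov] at this; exact this h
  have hDoc' : Diᶜ = Do ∪ circ φ s := by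
    ext x
    constructor
    · intro h
      by_cases hx : x ∈ circ φ s
      · exact Or.inr hx
      · have : x ∈ Di ∪ Do := by rw [hcov]; exact hx
        exact Or.inl (this.resolve_left h)
    · rintro (h | h) h1
      · exact (disjoint_left.1 hdisj) h1 h
      · have : x ∈ Di ∪ Do := Or.inl h1
        rw [hcov] at this; exact this h
  -- position of points of the ring
  have hpos : ∀ x ∈ φ.source, x ∈ Di → x ∈ part φ (Ioo 1 s) := by
    intro x hx hxD
    have hn := hring'.norm_mem hx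
    rcases lt_trichotomy ‖φ x‖ s with h | h | h
    · exact ⟨hx, hn.1, h⟩
    · exfalso
      have : x ∈ Di ∪ Do := Or.inl hxD
      rw [hcov] at this; exact this ⟨hx, h⟩
    · exact absurd (hpo ⟨hx, h, hn.2⟩) ((disjoint_left.1 hdisj) hxD)
  have hpos' : ∀ x ∈ φ.source, x ∈ Do → x ∈ part φ (Ioo s r) := by
    intro x hx hxD
    have hn := hring'.norm_mem hx
    rcases lt_trichotomy ‖φ x‖ s with h | h | h
    · exact absurd hxD ((disjoint_left.1 hdisj) (hpi ⟨hx, hn.1, h⟩))
    · exfalso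
      have : x ∈ Di ∪ Do := Or.inr hxD
      rw [hcov] at this; exact this ⟨hx, h⟩
    · exact ⟨hx, h, hn.2⟩
  -- both sides cover everything off the circle
  have honto_i : (circ φ s)ᶜ ⊆ g '' Di := by
    rcases cover_dichotomy hgc hgo hDi hDo hdisj hcov hDic hDoc hγ hclo
      ⟨xi, hpi hxi', hpi (hgpi xi hxi')⟩ with h | h
    · exact h
    exfalso
    have h1 : Di ⊆ F := by
      rw [hF]
      rw [hg] at h
      exact not_mapsTo_side hf hol hp hDi hDo ⟨xo, hpo hxo'⟩ hdisj h
    have h2 : Di ⊆ φ.source := hHmax Di hDic h1 ⟨xi, hpi hxi', hxi⟩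
    have h3 : IsCompact (Di ∪ circ φ s) := by
      rw [← hDic']; exact hDo.isClosed_compl.isCompact
    have h4 : Di ∪ circ φ s ⊆ φ.source := union_subset h2 (fun x hx => hx.1)
    obtain ⟨y, hy, hymin⟩ := h3.exists_isMinOn ⟨xi, Or.inl (hpi hxi')⟩
      ((φ.continuousOn.norm).mono h4)
    have hy1 := hring'.norm_mem (h4 hy)
    have hyi : ‖φ y‖ ≤ ‖φ xi‖ := hymin (Or.inl (hpi hxi'))
    rw [hxin] at hyi
    obtain ⟨x, hx, hxn⟩ := hring'.exists_norm (a := (1 + ‖φ y‖) / 2) (by linarith [hy1.1])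
      (by linarith [hy1.1])
    have h5 : x ∈ part φ (Ioo 1 s) := ⟨hx, by rw [hxn]; constructor <;> linarith [hy1.1]⟩
    have h6 : ‖φ y‖ ≤ ‖φ x‖ := hymin (Or.inl (hpi h5))
    rw [hxn] at h6
    linarith [hy1.1]
  have honto_o : (circ φ s)ᶜ ⊆ g '' Do := by
    rcases cover_dichotomy hgc hgo hDo hDi hdisj.symm (by rw [union_comm]; exact hcov) hDoc hDic
      hγ hcli ⟨xo, hpo hxo', hpo (hgpo xo hxo')⟩ with h | h
    · exact h
    exfalso
    have h1 : Do ⊆ F := by
      rw [hF]
      rw [hg] at h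
      exact not_mapsTo_side hf hol hp hDo hDi ⟨xi, hpi hxi'⟩ hdisj.symm h
    have h2 : Do ⊆ φ.source := hHmax Do hDoc h1 ⟨xo, hpo hxo', hxo⟩
    have h3 : IsCompact (Do ∪ circ φ s) := by
      rw [← hDoc']; exact hDi.isClosed_compl.isCompact
    have h4 : Do ∪ circ φ s ⊆ φ.source := union_subset h2 (fun x hx => hx.1)
    obtain ⟨y, hy, hymax⟩ := h3.exists_isMaxOn ⟨xo, Or.inl (hpo hxo')⟩
      ((φ.continuousOn.norm).mono h4)
    have hy1 := hring'.norm_mem (h4 hy)
    have hyi : ‖φ xo‖ ≤ ‖φ y‖ := hymax (Or.inl (hpo hxo'))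
    rw [hxon] at hyi
    obtain ⟨x, hx, hxn⟩ := hring'.exists_norm (a := (r + ‖φ y‖) / 2) (by linarith [hy1.1])
      (by linarith [hy1.2])
    have h5 : x ∈ part φ (Ioo s r) := ⟨hx, by rw [hxn]; constructor <;> linarith [hy1.2]⟩
    have h6 : ‖φ x‖ ≤ ‖φ y‖ := hymax (Or.inl (hpo h5))
    rw [hxn] at h6
    linarith [hy1.2]
  -- the Julia set
  obtain ⟨J, hJ⟩ : ∃ J, J = Fᶜ := ⟨_, rfl⟩
  have hJcl : IsClosed J := by rw [hJ]; exact hFo.isClosed_compl
  have hJcirc : J ⊆ (circ φ s)ᶜ := by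
    intro x hx h
    rw [hJ] at hx; exact hx (hHF h.1)
  have hJcov : J ⊆ Di ∪ Do := by rw [hcov]; exact hJcirc
  have hJg : ∀ z, g z ∈ J ↔ z ∈ J := by
    intro z; rw [hJ, mem_compl_iff, mem_compl_iff, hFg]
  have hJgn : ∀ n : ℕ, ∀ z, g^[n] z ∈ J ↔ z ∈ J := by
    intro n
    induction n with
    | zero => intro z; rfl
    | succ n ih => intro z; rw [Function.iterate_succ_apply', hJg, ih]
  have hX0 : IsClosed (J ∩ Di) := by
    have : J ∩ Di = J ∩ Doᶜ := by
      ext x; constructor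
      · rintro ⟨h1, h2⟩; exact ⟨h1, (disjoint_left.1 hdisj) h2⟩
      · rintro ⟨h1, h2⟩; exact ⟨h1, (hJcov h1).resolve_right h2⟩
    rw [this]; exact hJcl.inter hDo.isClosed_compl
  have hX1 : IsClosed (J ∩ Do) := by
    have : J ∩ Do = J ∩ Diᶜ := by
      ext x; constructor
      · rintro ⟨h1, h2⟩; exact ⟨h1, (disjoint_right.1 hdisj) h2⟩
      · rintro ⟨h1, h2⟩; exact ⟨h1, (hJcov h1).resolve_left h2⟩
    rw [this]; exact hJcl.inter hDi.isClosed_compl
  have hJ0 : J ⊆ g '' (J ∩ Di) := by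
    intro y hy
    obtain ⟨x, hx, rfl⟩ := honto_i (hJcirc hy)
    exact ⟨x, ⟨(hJg x).1 hy, hx⟩, rfl⟩
  have hJ1 : J ⊆ g '' (J ∩ Do) := by
    intro y hy
    obtain ⟨x, hx, rfl⟩ := honto_o (hJcirc hy)
    exact ⟨x, ⟨(hJg x).1 hy, hx⟩, rfl⟩
  have hJne : J.Nonempty := by
    by_contra hne
    rw [not_nonempty_iff_eq_empty] at hne
    have h1 : F = univ := by rw [← compl_compl F, ← hJ, hne, compl_empty]
    have h2 : φ.source = univ := by
      apply eq_univ_of_univ_subset
      exact hHmax univ isPreconnected_univ (by rw [h1]) ⟨xi, mem_univ _, hxi⟩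
    have h3 : IsCompact φ.source := by rw [h2]; exact isCompact_univ
    obtain ⟨y, hy, hymin⟩ := h3.exists_isMinOn ⟨xi, hxi⟩ φ.continuousOn.norm
    have hy1 := hring'.norm_mem hy
    obtain ⟨x, hx, hxn⟩ := hring'.exists_norm (a := (1 + ‖φ y‖) / 2) (by linarith [hy1.1])
      (by linarith [hy1.1, hy1.2])
    have h6 : ‖φ y‖ ≤ ‖φ x‖ := hymin hx
    rw [hxn] at h6
    linarith [hy1.1]
  -- itineraries
  obtain ⟨A, hA⟩ : ∃ A : Sph → Set ℕ, ∀ y n, n ∈ A y ↔ g^[n] y ∈ Di :=
    ⟨fun y => {n | g^[n] y ∈ Di}, fun _ _ => Iff.rfl⟩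
  have hDi_or : ∀ y ∈ J, ∀ n, n ∉ A y ↔ g^[n] y ∈ Do := by
    intro y hy n
    rw [hA]
    have h1 := hJcov ((hJgn n y).2 hy)
    constructor
    · intro h; exact h1.resolve_left h
    · intro h; exact (disjoint_right.1 hdisj) h
  have hreal : ∀ B : Set ℕ, ∃ x ∈ J, A x = B := by
    intro B
    obtain ⟨x, hx, hx2⟩ := exists_itinerary hgc hX0 hX1 inter_subset_left inter_subset_left
      hJ0 hJ1 hJne (fun n => n ∈ B)
    refine ⟨x, hx, ?_⟩
    ext n
    constructor
    · intro h
      by_contra hB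
      exact ((hDi_or x hx n).2 ((hx2 n).2 hB).2) h
    · intro h
      rw [hA]; exact ((hx2 n).1 h).2
  have hconst : ∀ K ⊆ J, IsPreconnected K → ∀ x ∈ K, ∀ y ∈ K, A x = A y := by
    have key : ∀ K ⊆ J, IsPreconnected K → ∀ x ∈ K, ∀ y ∈ K, A x ⊆ A y := by
      intro K hK hKc x hx y hy n hn
      rw [hA] at hn ⊢
      have h1 := hKc.image (g^[n]) (hgc.iterate n).continuousOn
      have h2 : g^[n] '' K ⊆ Di ∪ Do := by
        rintro _ ⟨z, hz, rfl⟩
        exact hJcov ((hJgn n z).2 (hK hz))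
      have h3 := h1.subset_left_of_subset_union hDi hDo hdisj h2
        ⟨g^[n] x, ⟨x, hx, rfl⟩, hn⟩
      exact h3 ⟨y, hy, rfl⟩
    intro K hK hKc x hx y hy
    exact Subset.antisymm (key K hK hKc x hx y hy) (key K hK hKc y hy x hx)
  -- itineraries on the closure of a Fatou component
  have hcloI : closure Di ∩ J ⊆ Di := by
    rintro x ⟨h1, h2⟩
    have h3 : closure Di ⊆ Doᶜ := closure_minimal (fun x hx => (disjoint_left.1 hdisj) hx)
      hDo.isClosed_compl
    exact (hJcov h2).resolve_right (h3 h1)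
  have hcloO : closure Do ∩ J ⊆ Do := by
    rintro x ⟨h1, h2⟩
    have h3 : closure Do ⊆ Diᶜ := closure_minimal (fun x hx => (disjoint_right.1 hdisj) hx)
      hDi.isClosed_compl
    exact (hJcov h2).resolve_left (h3 h1)
  have hHstep : ∀ z ∈ closure φ.source, z ∈ J → (g z ∈ Di ↔ z ∈ Di) := by
    intro z hz hzJ
    have hgz := (hJg z).2 hzJ
    have hin : z ∈ Di → g z ∈ Di := by
      intro hzD
      have h1 : z ∈ closure (part φ (Ioo 1 s)) := by
        rw [mem_closure_iff] at hz ⊢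
        intro O hO hzO
        obtain ⟨y, ⟨hy1, hy2⟩, hy3⟩ := hz (O ∩ Di) (hO.inter hDi) ⟨hzO, hzD⟩
        exact ⟨y, hy1, hpos y hy3 hy2⟩
      have h2 : g z ∈ closure Di := by
        refine map_mem_closure hgc h1 ?_
        intro y hy
        exact hpi (hgpi y hy)
      exact hcloI ⟨h2, hgz⟩
    have hout : z ∈ Do → g z ∈ Do := by
      intro hzD
      have h1 : z ∈ closure (part φ (Ioo s r)) := by
        rw [mem_closure_iff] at hz ⊢
        intro O hO hzO
        obtain ⟨y, ⟨hy1, hy2⟩, hy3⟩ := hz (O ∩ Do) (hO.inter hDo) ⟨hzO, hzD⟩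
        exact ⟨y, hy1, hpos' y hy3 hy2⟩
      have h2 : g z ∈ closure Do := by
        refine map_mem_closure hgc h1 ?_
        intro y hy
        exact hpo (hgpo y hy)
      exact hcloO ⟨h2, hgz⟩
    constructor
    · intro h
      by_contra h1
      have h2 := hout ((hJcov hzJ).resolve_left h1)
      exact (disjoint_left.1 hdisj) h h2
    · exact hin
  have hcount : ∀ U, IsComp F U → {B | ∃ y ∈ J, y ∈ closure U ∧ A y = B}.Countable := by
    rintro U ⟨z, hz, hU⟩
    have hUF : U ⊆ F := by rw [hU]; exact connectedComponentIn_subset _ _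
    have hUc : IsPreconnected U := by rw [hU]; exact isPreconnected_connectedComponentIn
    have hzU : z ∈ U := by rw [hU]; exact mem_connectedComponentIn hz
    have himc : ∀ n : ℕ, IsPreconnected (g^[n] '' U) := fun n =>
      hUc.image _ (hgc.iterate n).continuousOn
    have himF : ∀ n : ℕ, g^[n] '' U ⊆ F := by
      rintro n _ ⟨x, hx, rfl⟩
      by_contra h
      have h1 : g^[n] x ∈ J := by rw [hJ]; exact h
      have h2 := (hJgn n x).1 h1
      rw [hJ] at h2
      exact h2 (hUF hx)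
    have hcl : ∀ (n : ℕ) (T : Set Sph), g^[n] '' U ⊆ T → ∀ y ∈ closure U, g^[n] y ∈ closure T := by
      intro n T hT y hy
      refine map_mem_closure (hgc.iterate n) hy ?_
      intro x hx
      exact hT ⟨x, hx, rfl⟩
    -- at a time when the image misses the ring the symbol is determined
    have hdet : ∀ n : ℕ, ¬ ((g^[n] '' U) ∩ φ.source).Nonempty →
        ∀ x ∈ J, x ∈ closure U → ∀ y ∈ J, y ∈ closure U → (n ∈ A x → n ∈ A y) := by
      intro n hn x hxJ hx y hyJ hy hnx
      have h1 : g^[n] '' U ⊆ Di ∪ Do := by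
        rw [hcov]
        intro w hw h2
        exact hn ⟨w, hw, h2.1⟩
      by_cases h2 : ((g^[n] '' U) ∩ Di).Nonempty
      · have h3 := (himc n).subset_left_of_subset_union hDi hDo hdisj h1 h2
        rw [hA]
        exact hcloI ⟨hcl n Di h3 y hy, (hJgn n y).2 hyJ⟩
      · have h3 : g^[n] '' U ⊆ Do := by
          intro w hw
          rcases h1 hw with h4 | h4
          · exact absurd ⟨w, hw, h4⟩ h2
          · exact h4
        have h4 : g^[n] x ∈ Do := hcloO ⟨hcl n Do h3 x hx, (hJgn n x).2 hxJ⟩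
        exact absurd hnx ((hDi_or x hxJ n).2 h4)
    by_cases hcase : ∃ n : ℕ, ((g^[n] '' U) ∩ φ.source).Nonempty
    · classical
      obtain ⟨N, hN, hNmin⟩ : ∃ N : ℕ, ((g^[N] '' U) ∩ φ.source).Nonempty ∧
          ∀ n < N, ¬ ((g^[n] '' U) ∩ φ.source).Nonempty :=
        ⟨Nat.find hcase, Nat.find_spec hcase, fun n hn => Nat.find_min hcase hn⟩
      have hNsub : g^[N] '' U ⊆ φ.source := hHmax _ (himc N) (himF N) hN
      have hNsub' : ∀ m : ℕ, g^[N + m] '' U ⊆ φ.source := by
        intro m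
        induction m with
        | zero => exact hNsub
        | succ m ih =>
          rintro _ ⟨x, hx, rfl⟩
          rw [← Nat.add_assoc, Function.iterate_succ_apply']
          exact hring'.maps (ih ⟨x, hx, rfl⟩)
      have htail : ∀ y ∈ J, y ∈ closure U → ∀ m : ℕ, (N + m ∈ A y ↔ N ∈ A y) := by
        intro y hyJ hy m
        induction m with
        | zero => rfl
        | succ m ih =>
          rw [← ih, hA, hA, ← Nat.add_assoc, Function.iterate_succ_apply']
          exact hHstep _ (hcl (N + m) _ (hNsub' m) y hy) ((hJgn _ y).2 hyJ)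
      have hinj : InjOn (fun B : Set ℕ => (N ∈ B)) {B | ∃ y ∈ J, y ∈ closure U ∧ A y = B} := by
        rintro _ ⟨x, hxJ, hx, rfl⟩ _ ⟨y, hyJ, hy, rfl⟩ h
        simp only [eq_iff_iff] at h
        ext n
        rcases lt_or_ge n N with hn | hn
        · exact ⟨hdet n (hNmin n hn) x hxJ hx y hyJ hy, hdet n (hNmin n hn) y hyJ hy x hxJ hx⟩
        · obtain ⟨m, rfl⟩ := Nat.exists_eq_add_of_le hn
          rw [htail x hxJ hx, htail y hyJ hy]; exact h
      exact Set.countable_of_injective_of_countable_image hinj (Set.toFinite _).countable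
    · push Not at hcase
      apply Set.Subsingleton.countable
      rintro _ ⟨x, hxJ, hx, rfl⟩ _ ⟨y, hyJ, hy, rfl⟩
      ext n
      have h1 : ¬ ((g^[n] '' U) ∩ φ.source).Nonempty := by
        rw [hcase n]; exact Set.not_nonempty_empty
      exact ⟨hdet n h1 x hxJ hx y hyJ hy, hdet n h1 y hyJ hy x hxJ hx⟩
  -- choose an itinerary which no boundary realises
  have hall : (⋃ U ∈ {U | IsComp F U}, {B | ∃ y ∈ J, y ∈ closure U ∧ A y = B}).Countable :=
    (countable_components hFo).biUnion hcount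
  obtain ⟨B, hB⟩ : ∃ B : Set ℕ,
      B ∉ ⋃ U ∈ {U | IsComp F U}, {B | ∃ y ∈ J, y ∈ closure U ∧ A y = B} := by
    by_contra h
    push Not at h
    have h1 : (univ : Set (Set ℕ)).Countable := hall.mono fun B _ => h B
    have h2 : Countable (Set ℕ) := countable_univ_iff.1 h1
    obtain ⟨e, he⟩ := exists_surjective_nat (Set ℕ)
    exact Function.cantor_surjective e he
  obtain ⟨x, hx, hxB⟩ := hreal B
  refine ⟨connectedComponentIn J x, ⟨x, by rw [← hJ]; exact hx, by rw [hJ]⟩, fun U hU => ?_⟩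
  rw [disjoint_left]
  intro y hy hyU
  apply hB
  rw [mem_iUnion₂]
  have hyJ : y ∈ J := connectedComponentIn_subset _ _ hy
  refine ⟨U, hU, y, hyJ, frontier_subset_closure hyU, ?_⟩
  rw [← hxB]
  exact hconst _ (connectedComponentIn_subset _ _) isPreconnected_connectedComponentIn y hy x
    (mem_connectedComponentIn hx)

end Pool.Agent.Work.MP_cf3138_an
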