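import Pool.Agent.Work.MP_cf3138_an.Rat

/-!
Equicontinuity of a family of holomorphic self-maps of the sphere omitting an open set.
-/

open Set Filter Topology OnePoint Polynomial Metric

namespace Pool.Agent.Work.MP_cf3138_an

/-- The Möbius map `z ↦ 1/(z-a)`. -/
lemma moebius_nonConst (a : ℂ) : NonConst (1 : ℂ[X]) (X - C a) := by
  apply nonConst_of_coprime isCoprime_one_left
  simp

lemma moebius_inv_nonConst (a : ℂ) : NonConst (C a * X + 1 : ℂ[X]) X := by
  refine ⟨⟨?_, X_ne_zero, ?_⟩, ?_⟩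
  · intro h
    have := congrArg (Polynomial.eval 0) h
    simp at this
  · intro z h1 h2
    simp at h2
    subst h2
    simp at h1
  · intro c h
    have := congrArg (Polynomial.eval 0) h
    simp at this

lemma moebius_apply_ne {a : ℂ} {x : Sph} (hx : x ≠ (a : Sph)) :
    ratMap 1 (X - C a) x ≠ ∞ := by
  induction x using OnePoint.rec with
  | infty => rw [ratMap_infty, if_neg (by simp)]; exact OnePoint.coe_ne_infty _
  | coe z =>
    have hza : z ≠ a := by rintro rfl; exact hx rfl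
    rw [ratMap_coe, if_neg (by simpa [sub_eq_zero] using hza)]; exact OnePoint.coe_ne_infty _

lemma moebius_left_inv {a : ℂ} {x : Sph} (hx : x ≠ (a : Sph)) :
    ratMap (C a * X + 1) X ((fin (ratMap 1 (X - C a) x) : ℂ) : Sph) = x := by
  induction x using OnePoint.rec with
  | infty =>
    have e : ratMap 1 (X - C a) ∞ = ((0 : ℂ) : Sph) := by
      rw [ratMap_infty, if_neg (by simp)]
      congr 1
      rw [natDegree_X_sub_C, coeff_one]; simp
    rw [e, fin_coe, ratMap_coe, if_pos (by simp)]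
  | coe z =>
    have hza : z - a ≠ 0 := by
      intro h; exact hx (by rw [sub_eq_zero.1 h])
    have e : ratMap 1 (X - C a) z = (((z - a)⁻¹ : ℂ) : Sph) := by
      rw [ratMap_coe, if_neg (by simpa using hza)]
      simp
    rw [e, fin_coe, ratMap_coe, if_neg (by simpa using hza)]
    congr 1
    simp
    field_simp
    ring

lemma moebius_bound {a : ℂ} {ρ : ℝ} (hρ : 0 < ρ) {x : Sph} (hx : ∀ z : ℂ, dist z a < ρ → x ≠ z) :
    ‖fin (ratMap 1 (X - C a) x)‖ ≤ 1 / ρ := by
  induction x using OnePoint.rec with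
  | infty =>
    have e : ratMap 1 (X - C a) ∞ = ((0 : ℂ) : Sph) := by
      rw [ratMap_infty, if_neg (by simp)]
      congr 1
      rw [natDegree_X_sub_C, coeff_one]; simp
    rw [e, fin_coe, norm_zero]; positivity
  | coe z =>
    have h1 : ρ ≤ ‖z - a‖ := by
      by_contra h
      push Not at h
      exact hx z (by rwa [dist_eq_norm]) rfl
    have hza : z - a ≠ 0 := by
      intro h; rw [h, norm_zero] at h1; linarith
    have e : ratMap 1 (X - C a) z = (((z - a)⁻¹ : ℂ) : Sph) := by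
      rw [ratMap_coe, if_neg (by simpa using hza)]
      simp
    rw [e, fin_coe, norm_inv, ← one_div]
    exact one_div_le_one_div_of_le hρ h1

/-- Equicontinuity at a finite point of a family omitting a disc. -/
lemma equicont_coe {ι : Type} {F : ι → Sph → Sph} (hF : ∀ i, Hol (F i)) {U : Set Sph}
    (hU : IsOpen U) {a : ℂ} {ρ : ℝ} (hρ : 0 < ρ)
    (hom : ∀ i, ∀ x ∈ U, ∀ z : ℂ, dist z a < ρ → F i x ≠ z) {z₀ : ℂ} (hz : (z₀ : Sph) ∈ U)
    {V : Set (Sph × Sph)} (hV : V ∈ 𝓝ˢ (diagonal Sph)) :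
    ∀ᶠ w in 𝓝 (z₀ : Sph), ∀ i, (F i z₀, F i w) ∈ V := by
  let _ : UniformSpace Sph := uniformSpaceOfCompactR1
  have hV' : V ∈ uniformity Sph := hV
  have hne : ∀ i, ∀ x ∈ U, F i x ≠ (a : Sph) := fun i x hx => hom i x hx a (by simpa using hρ)
  -- the bounded holomorphic functions
  obtain ⟨h, hh⟩ : ∃ h : ι → ℂ → ℂ, ∀ i w, h i w = fin (ratMap 1 (X - C a) (F i (w : Sph))) :=
    ⟨_, fun _ _ => rfl⟩
  have hT := (moebius_nonConst a).good.hol
  have hbd : ∀ i, ∀ w : ℂ, (w : Sph) ∈ U → ‖h i w‖ ≤ 1 / ρ := by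
    intro i w hw
    rw [hh]
    exact moebius_bound hρ (fun z hz => hom i _ hw z hz)
  have han : ∀ i, ∀ w : ℂ, (w : Sph) ∈ U → AnalyticAt ℂ (h i) w := by
    intro i w hw
    have h1 := (hT.comp (hF i)).an false false w
    have h2 : tw false false (ratMap 1 (X - C a) ∘ F i) w ≠ ∞ :=
      moebius_apply_ne (hne i _ hw)
    have h3 := h1 h2
    have e : h i = fun w : ℂ => fin (tw false false (ratMap 1 (X - C a) ∘ F i) w) := by
      funext w; rw [hh]; rfl
    rw [e]; exact h3
  -- a small disc in `U`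
  obtain ⟨R, hR, hRU⟩ := Metric.mem_nhds_iff.1
    (OnePoint.continuous_coe.continuousAt.preimage_mem_nhds (hU.mem_nhds hz))
  -- uniform continuity of the inverse Möbius map
  have hΦ : Continuous (fun u : ℂ => ratMap (C a * X + 1) X (u : Sph)) :=
    (moebius_inv_nonConst a).good.continuous.comp OnePoint.continuous_coe
  have hK : IsCompact (closedBall (0 : ℂ) (1 / ρ)) := isCompact_closedBall _ _
  have huc := hK.uniformContinuousOn_of_continuous hΦ.continuousOn
  obtain ⟨ε, hε, hεV⟩ := (Metric.uniformity_basis_dist.inf_principal _).mem_iff.1 (huc hV')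
  -- the Lipschitz bound
  have hlip : ∀ i, ∀ w ∈ ball z₀ R, dist (h i w) (h i z₀) ≤ (1 / ρ + 1 / ρ) / R * dist w z₀ := by
    intro i w hw
    refine Complex.dist_le_div_mul_dist_of_mapsTo_ball ?_ ?_ hw
    · intro u hu
      exact (han i u (hRU hu)).differentiableAt.differentiableWithinAt
    · intro u hu
      rw [mem_closedBall, dist_eq_norm]
      exact (norm_sub_le _ _).trans (add_le_add (hbd i u (hRU hu)) (hbd i z₀ hz))
  have hev : ∀ᶠ w in 𝓝 z₀, w ∈ ball z₀ R ∧ (1 / ρ + 1 / ρ) / R * dist w z₀ < ε := by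
    apply Filter.Eventually.and (ball_mem_nhds z₀ hR)
    have h1 : Tendsto (fun w => (1 / ρ + 1 / ρ) / R * dist w z₀) (𝓝 z₀) (𝓝 0) := by
      have : Continuous (fun w : ℂ => (1 / ρ + 1 / ρ) / R * dist w z₀) := by fun_prop
      have h2 := this.tendsto z₀
      simpa using h2
    exact h1.eventually (gt_mem_nhds hε)
  rw [OnePoint.nhds_coe_eq, Filter.eventually_map]
  filter_upwards [hev] with w hw i
  have e1 : ratMap (C a * X + 1) X ((h i w : ℂ) : Sph) = F i w := by
    rw [hh]; exact moebius_left_inv (hne i _ (hRU hw.1))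
  have e2 : ratMap (C a * X + 1) X ((h i z₀ : ℂ) : Sph) = F i z₀ := by
    rw [hh]; exact moebius_left_inv (hne i _ hz)
  have hmem : (h i z₀, h i w) ∈ {p : ℂ × ℂ | dist p.1 p.2 < ε} ∩
      closedBall (0 : ℂ) (1 / ρ) ×ˢ closedBall (0 : ℂ) (1 / ρ) := by
    refine ⟨?_, ?_, ?_⟩
    · show dist (h i z₀) (h i w) < ε
      rw [dist_comm]
      exact (hlip i w hw.1).trans_lt hw.2
    · simpa using hbd i z₀ hz
    · simpa using hbd i w (hRU hw.1)
  have h2 := hεV hmem
  rw [← e1, ← e2]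
  exact h2

/-- The dense finite part meets every nonempty open set in a disc. -/
lemma exists_disc {W : Set Sph} (hW : IsOpen W) (hne : W.Nonempty) :
    ∃ (a : ℂ) (ρ : ℝ), 0 < ρ ∧ ∀ z : ℂ, dist z a < ρ → (z : Sph) ∈ W := by
  obtain ⟨a, ha⟩ := (OnePoint.denseRange_coe (X := ℂ)).exists_mem_open hW hne
  obtain ⟨R, hR, hRU⟩ := Metric.mem_nhds_iff.1
    (OnePoint.continuous_coe.continuousAt.preimage_mem_nhds (hW.mem_nhds ha))
  exact ⟨a, R, hR, fun z hz => hRU hz⟩

lemma Hol.comp_sinv {F : Sph → Sph} (h : Hol F) : Hol (F ∘ sinv) := by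
  refine ⟨h.cont.comp continuous_sinv, fun a b z hz => ?_⟩
  cases b
  · exact h.an a true z hz
  · have e : tw a true (F ∘ sinv) = tw a false F := by
      funext x
      simp [tw, sinv_sinv]
    rw [e] at hz ⊢
    exact h.an a false z hz

/-- Equicontinuity of a family of holomorphic self-maps omitting a nonempty open set. -/
theorem equicont_of_omit {ι : Type} {F : ι → Sph → Sph} (hF : ∀ i, Hol (F i)) {U W : Set Sph}
    (hU : IsOpen U) (hW : IsOpen W) (hWne : W.Nonempty) (hom : ∀ i, ∀ x ∈ U, F i x ∉ W)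
    {x : Sph} (hx : x ∈ U) {V : Set (Sph × Sph)} (hV : V ∈ 𝓝ˢ (diagonal Sph)) :
    ∀ᶠ w in 𝓝 x, ∀ i, (F i x, F i w) ∈ V := by
  obtain ⟨a, ρ, hρ, haW⟩ := exists_disc hW hWne
  have hom' : ∀ i, ∀ x ∈ U, ∀ z : ℂ, dist z a < ρ → F i x ≠ z := by
    intro i x hx z hz h
    exact hom i x hx (h ▸ haW z hz)
  induction x using OnePoint.rec with
  | coe z => exact equicont_coe hF hU hρ hom' hx hV
  | infty =>
    have h1 : ∀ᶠ w in 𝓝 (((0 : ℂ)) : Sph), ∀ i, ((F i ∘ sinv) ((0 : ℂ) : Sph),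
        (F i ∘ sinv) w) ∈ V := by
      refine equicont_coe (a := a) (F := fun i => F i ∘ sinv) (U := sinv ⁻¹' U)
        (fun i => (hF i).comp_sinv) (hU.preimage continuous_sinv) hρ ?_ ?_ hV
      · intro i y hy z hz
        exact hom' i _ hy z hz
      · show sinv ((0 : ℂ) : Sph) ∈ U
        rw [sinv_zero]; exact hx
    have h2 : Tendsto sinv (𝓝 ∞) (𝓝 (((0 : ℂ)) : Sph)) := by
      have := continuous_sinv.tendsto ∞
      rwa [sinv_infty] at this
    filter_upwards [h2.eventually h1] with w hw i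
    have h3 := hw i
    simp only [Function.comp, sinv_zero, sinv_sinv] at h3
    exact h3

end Pool.Agent.Work.MP_cf3138_an
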