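import Pool.Agent.Work.MP_cf3138_an.Main

/-!
The Fatou set defined through normal families equals the interior of the set of equicontinuity
points (Arzela-Ascoli).
-/

open Set Filter Topology OnePoint TopologicalSpace Uniformity

namespace Pool.Agent.Work.MP_cf3138_an

instance : FirstCountableTopology Sph := by
  constructor
  intro x
  induction x using OnePoint.rec with
  | infty =>
    rw [OnePoint.nhds_infty_eq, coclosedCompact_eq_cocompact, ← Metric.cobounded_eq_cocompact,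
      ← comap_norm_atTop]
    infer_instance
  | coe z =>
    rw [OnePoint.nhds_coe_eq]
    infer_instance

instance : SeparableSpace Sph := by
  obtain ⟨D, hD1, hD2⟩ := exists_countable_dense ℂ
  refine ⟨(↑) '' D, hD1.image _, ?_⟩
  exact (OnePoint.denseRange_coe (X := ℂ)).dense_image OnePoint.continuous_coe hD2

/-- A normal family of continuous maps is equicontinuous. -/
lemma equicont_of_normal {F : ℕ → Sph → Sph} (hF : ∀ n, Continuous (F n)) {U : Set Sph}
    (hU : IsOpen U) (h : IsNormalOn F U) {x : Sph} (hx : x ∈ U) {V : Set (Sph × Sph)}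
    (hV : V ∈ 𝓝ˢ (diagonal Sph)) : ∀ᶠ w in 𝓝 x, ∀ n, (F n x, F n w) ∈ V := by
  let _ : UniformSpace Sph := uniformSpaceOfCompactR1
  by_contra hcon
  obtain ⟨w, hw1, hw2⟩ := Filter.exists_seq_forall_of_frequently (Filter.not_eventually.1 hcon)
  have hw3 : ∀ k, ∃ n, (F n x, F n (w k)) ∉ V := by
    intro k
    have := hw2 k
    push Not at this
    exact this
  choose σ hσ using hw3
  obtain ⟨τ, hτ, g, hg⟩ := h σ
  have hgc : ContinuousOn g U := hg.continuousOn (Frequently.of_forall fun k =>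
    (hF _).continuousOn)
  have h1 : Tendsto (fun k => F (σ (τ k)) x) atTop (𝓝 (g x)) :=
    hg.tendsto_comp (hgc x hx) hx (tendsto_const_pure.mono_right (pure_le_nhdsWithin hx))
  have h2 : Tendsto (fun k => w (τ k)) atTop (𝓝[U] x) := by
    rw [hU.nhdsWithin_eq hx]
    exact hw1.comp hτ.tendsto_atTop
  have h3 : Tendsto (fun k => F (σ (τ k)) (w (τ k))) atTop (𝓝 (g x)) :=
    hg.tendsto_comp (hgc x hx) hx h2
  have h4 : Tendsto (fun k => (F (σ (τ k)) x, F (σ (τ k)) (w (τ k)))) atTop (𝓝 (g x, g x)) := by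
    rw [nhds_prod_eq]; exact h1.prodMk h3
  have h5 : V ∈ 𝓝 (g x, g x) := nhds_le_nhdsSet (mem_diagonal _) hV
  obtain ⟨k, hk⟩ := (h4.eventually h5).exists
  exact hσ (τ k) hk

/-- Arzela-Ascoli: an equicontinuous family on an open set is normal there. -/
lemma normal_of_equicont {F : ℕ → Sph → Sph} {O : Set Sph} (hO : IsOpen O)
    (h : ∀ x ∈ O, ∀ V ∈ 𝓝ˢ (diagonal Sph), ∀ᶠ w in 𝓝 x, ∀ n, (F n x, F n w) ∈ V) :
    IsNormalOn F O := by
  let _ : UniformSpace Sph := uniformSpaceOfCompactR1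
  intro σ
  have h' : ∀ x ∈ O, ∀ V ∈ 𝓤 Sph, ∀ᶠ w in 𝓝 x, ∀ n, (F n x, F n w) ∈ V := h
  obtain ⟨a, τ, hτ, ha⟩ := CompactSpace.tendsto_subseq
    (fun (k : ℕ) (i : ℕ) => F (σ k) (denseSeq Sph i))
  have ha' : ∀ i, Tendsto (fun k => F (σ (τ k)) (denseSeq Sph i)) atTop (𝓝 (a i)) := by
    intro i
    exact (tendsto_pi_nhds.1 ha) i
  have hcau : ∀ x ∈ O, CauchySeq (fun k => F (σ (τ k)) x) := by
    intro x hx
    rw [cauchySeq_iff]
    intro V hV
    obtain ⟨W, hW, hWs, hWV⟩ := comp_comp_symm_mem_uniformity_sets hV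
    have h1 := h' x hx W hW
    obtain ⟨_, ⟨i, rfl⟩, hw1⟩ := (denseRange_denseSeq Sph).inter_nhds_nonempty h1
    have h2 := (ha' i).cauchySeq
    rw [cauchySeq_iff] at h2
    obtain ⟨N, hN⟩ := h2 W hW
    refine ⟨N, fun m hm n hn => hWV ?_⟩
    refine ⟨F (σ (τ n)) (denseSeq Sph i), ⟨F (σ (τ m)) (denseSeq Sph i), ?_, ?_⟩, ?_⟩
    · exact hw1 _
    · exact hN m hm n hn
    · exact hWs.symm _ _ (hw1 _)
  have hlim : ∀ x ∈ O, ∃ y, Tendsto (fun k => F (σ (τ k)) x) atTop (𝓝 y) := fun x hx =>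
    cauchySeq_tendsto_of_complete (hcau x hx)
  choose! g hg using hlim
  refine ⟨τ, hτ, g, ?_⟩
  intro V hV x hx
  obtain ⟨W, hW, hWs, hWV⟩ := comp_comp_symm_mem_uniformity_sets hV
  obtain ⟨W', ⟨hW', hW'c⟩, hW'W⟩ := uniformity_hasBasis_closed.mem_iff.1 hW
  have h1 : ∀ᶠ w in 𝓝 x, (∀ n, (F n x, F n w) ∈ W') ∧ w ∈ O :=
    (h' x hx W' hW').and (hO.mem_nhds hx)
  refine ⟨_, mem_nhdsWithin_of_mem_nhds h1, ?_⟩
  have h2 : ∀ᶠ k in atTop, (g x, F (σ (τ k)) x) ∈ W :=
    (Uniform.tendsto_nhds_right.1 (hg x hx)) hW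
  filter_upwards [h2] with k hk y hy
  obtain ⟨hy1, hyO⟩ := hy
  have h3 : (g x, g y) ∈ W' := by
    refine hW'c.mem_of_tendsto (f := fun k => (F (σ (τ k)) x, F (σ (τ k)) y)) (b := atTop) ?_
      (Eventually.of_forall fun k => hy1 _)
    rw [nhds_prod_eq]
    exact (hg x hx).prodMk (hg y hyO)
  apply hWV
  refine ⟨F (σ (τ k)) x, ⟨g x, ?_, hk⟩, hW'W (hy1 _)⟩
  exact hWs.symm _ _ (hW'W h3)

theorem fatouSet_eq {f : Sph → Sph} (hf : Continuous f) : fatouSet f = eqFatou f := by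
  apply Subset.antisymm
  · rintro z ⟨U, hU, hz, hn⟩
    apply mem_interior.2
    refine ⟨U, fun x hx V hV => ?_, hU, hz⟩
    exact equicont_of_normal (F := fun n => f^[n]) (fun n => hf.iterate n) hU hn hx hV
  · intro z hz
    refine ⟨eqFatou f, isOpen_interior, hz, ?_⟩
    apply normal_of_equicont isOpen_interior
    intro x hx V hV
    exact interior_subset hx V hV

end Pool.Agent.Work.MP_cf3138_an
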