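import Pool.Agent.Work.MP_cf3138_an.Sphere

/-!
Rational maps of the Riemann sphere: continuity, openness, analyticity in the charts.
-/

open Set Filter Topology OnePoint Polynomial

namespace Pool.Agent.Work.MP_cf3138_an

lemma ratMap_infty (P Q : ℂ[X]) : ratMap P Q ∞ = if Q.natDegree < P.natDegree then ∞
      else ((P.coeff Q.natDegree / Q.leadingCoeff : ℂ) : Sph) := rfl
lemma ratMap_coe (P Q : ℂ[X]) (z : ℂ) : ratMap P Q (z : Sph) =
    if Q.eval z = 0 then ∞ else ((P.eval z / Q.eval z : ℂ) : Sph) := rfl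

/-- The pairs defining a rational map: nonzero, without common zeros. -/
structure Good (P Q : ℂ[X]) : Prop where
  hP : P ≠ 0
  hQ : Q ≠ 0
  cop : ∀ z, P.eval z = 0 → Q.eval z = 0 → False

lemma Good.symm {P Q : ℂ[X]} (h : Good P Q) : Good Q P :=
  ⟨h.hQ, h.hP, fun z h1 h2 => h.cop z h2 h1⟩

lemma Good.sinv_ratMap {P Q : ℂ[X]} (h : Good P Q) (x : Sph) :
    sinv (ratMap P Q x) = ratMap Q P x := by
  induction x using OnePoint.rec with
  | infty =>
    rw [ratMap_infty, ratMap_infty]
    rcases lt_trichotomy Q.natDegree P.natDegree with h1 | h1 | h1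
    · rw [if_pos h1, if_neg (by omega), sinv_infty]
      rw [coeff_eq_zero_of_natDegree_lt h1, zero_div]
    · rw [if_neg (by omega), if_neg (by omega)]
      have hp : P.coeff Q.natDegree ≠ 0 := by
        rw [h1]; exact leadingCoeff_ne_zero.2 h.hP
      have hq : Q.leadingCoeff ≠ 0 := leadingCoeff_ne_zero.2 h.hQ
      rw [sinv_coe (div_ne_zero hp hq), inv_div]
      congr 2
      · rw [← h1]; rfl
      · rw [h1]; rfl
    · rw [if_neg (by omega), if_pos h1, coeff_eq_zero_of_natDegree_lt h1, zero_div, sinv_zero]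
  | coe z =>
    rw [ratMap_coe, ratMap_coe]
    by_cases h1 : Q.eval z = 0
    · have h2 : P.eval z ≠ 0 := fun h2 => h.cop z h2 h1
      rw [if_pos h1, if_neg h2, h1, sinv_infty, zero_div]
    · rw [if_neg h1]
      by_cases h2 : P.eval z = 0
      · rw [if_pos h2, h2, zero_div, sinv_zero]
      · rw [if_neg h2, sinv_coe (div_ne_zero h2 h1), inv_div]

lemma eval_reflect {N : ℕ} {P : ℂ[X]} (hN : P.natDegree ≤ N) {z : ℂ} (hz : z ≠ 0) :
    (P.reflect N).eval z = z ^ N * P.eval z⁻¹ := by
  have : Invertible z⁻¹ := invertibleOfNonzero (inv_ne_zero hz)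
  have h := eval₂_reflect_mul_pow (RingHom.id ℂ) z⁻¹ N P hN
  have h1 : (⅟(z⁻¹) : ℂ) = z := by rw [invOf_eq_inv, inv_inv]
  rw [h1] at h
  simp only [eval₂_id] at h
  rw [← h, inv_pow]
  field_simp

lemma eval_zero_reflect {N : ℕ} {P : ℂ[X]} : (P.reflect N).eval 0 = P.coeff N := by
  rw [← coeff_zero_eq_eval_zero, coeff_reflect, revAt_zero]

/-- The common degree. -/
noncomputable def dg (P Q : ℂ[X]) : ℕ := max P.natDegree Q.natDegree

lemma natDegree_reflect_le' {N : ℕ} {P : ℂ[X]} (hN : P.natDegree ≤ N) :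
    (P.reflect N).natDegree ≤ N := by
  refine natDegree_reflect_le.trans ?_
  exact max_le le_rfl hN

lemma Good.reflect {P Q : ℂ[X]} (h : Good P Q) :
    Good (P.reflect (dg P Q)) (Q.reflect (dg P Q)) := by
  refine ⟨fun h1 => h.hP (reflect_eq_zero_iff.1 h1), fun h1 => h.hQ (reflect_eq_zero_iff.1 h1), ?_⟩
  intro z h1 h2
  by_cases hz : z = 0
  · subst hz
    rw [eval_zero_reflect] at h1 h2
    unfold dg at h1 h2
    rcases le_total P.natDegree Q.natDegree with h3 | h3
    · rw [max_eq_right h3] at h2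
      exact leadingCoeff_ne_zero.2 h.hQ h2
    · rw [max_eq_left h3] at h1
      exact leadingCoeff_ne_zero.2 h.hP h1
  · have hPd : P.natDegree ≤ dg P Q := le_max_left _ _
    have hQd : Q.natDegree ≤ dg P Q := le_max_right _ _
    rw [eval_reflect hPd hz] at h1
    rw [eval_reflect hQd hz] at h2
    have h3 := pow_ne_zero (dg P Q) hz
    exact h.cop z⁻¹ ((mul_eq_zero.1 h1).resolve_left h3) ((mul_eq_zero.1 h2).resolve_left h3)

lemma Good.ratMap_sinv {P Q : ℂ[X]} (h : Good P Q) (x : Sph) :
    ratMap P Q (sinv x) = ratMap (P.reflect (dg P Q)) (Q.reflect (dg P Q)) x := by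
  have hPd : P.natDegree ≤ dg P Q := le_max_left _ _
  have hQd : Q.natDegree ≤ dg P Q := le_max_right _ _
  induction x using OnePoint.rec with
  | infty =>
    have hPr := natDegree_reflect_le' hPd
    have hQr := natDegree_reflect_le' hQd
    have cP : (P.reflect (dg P Q)).coeff (dg P Q) = P.eval 0 := by
      rw [coeff_reflect, revAt_le le_rfl, Nat.sub_self, coeff_zero_eq_eval_zero]
    have cQ : (Q.reflect (dg P Q)).coeff (dg P Q) = Q.eval 0 := by
      rw [coeff_reflect, revAt_le le_rfl, Nat.sub_self, coeff_zero_eq_eval_zero]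
    rw [sinv_infty, ratMap_coe, ratMap_infty]
    by_cases h1 : Q.eval 0 = 0
    · have h2 : P.eval 0 ≠ 0 := fun h2 => h.cop 0 h2 h1
      have h3 : dg P Q ≤ (P.reflect (dg P Q)).natDegree :=
        le_natDegree_of_ne_zero (by rw [cP]; exact h2)
      have h4 : (Q.reflect (dg P Q)).natDegree < dg P Q := by
        rcases lt_or_eq_of_le hQr with h4 | h4
        · exact h4
        · exfalso
          have h5 : (Q.reflect (dg P Q)).leadingCoeff = 0 := by
            unfold leadingCoeff; rw [h4, cQ, h1]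
          exact h.reflect.hQ (leadingCoeff_eq_zero.1 h5)
      rw [if_pos h1, if_pos (h4.trans_le h3)]
    · have h3 : (Q.reflect (dg P Q)).natDegree = dg P Q :=
        le_antisymm hQr (le_natDegree_of_ne_zero (by rw [cQ]; exact h1))
      rw [if_neg h1, if_neg (by omega)]
      unfold leadingCoeff
      rw [h3, cP, cQ]
  | coe z =>
    by_cases hz : z = 0
    · subst hz
      rw [sinv_zero, ratMap_coe, ratMap_infty, eval_zero_reflect, eval_zero_reflect]
      unfold dg
      rcases le_or_gt P.natDegree Q.natDegree with h3 | h3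
      · have hq : Q.coeff Q.natDegree ≠ 0 := leadingCoeff_ne_zero.2 h.hQ
        rw [max_eq_right h3, if_neg (by omega), if_neg hq]
        rfl
      · rw [max_eq_left h3.le, if_pos h3, coeff_eq_zero_of_natDegree_lt h3, if_pos rfl]
    · rw [sinv_coe hz, ratMap_coe, ratMap_coe, eval_reflect hPd hz, eval_reflect hQd hz]
      have h3 := pow_ne_zero (dg P Q) hz
      by_cases h1 : Q.eval z⁻¹ = 0
      · rw [if_pos h1, if_pos (by rw [h1, mul_zero])]
      · rw [if_neg h1, if_neg (mul_ne_zero h3 h1), mul_div_mul_left _ _ h3]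

/-! ### Holomorphic self-maps of the sphere -/

/-- A map of the sphere read in the four charts: post-composition with `id` or `sinv` and
pre-composition with `id` or `sinv`. -/
noncomputable def tw (a b : Bool) (F : Sph → Sph) : Sph → Sph := fun x =>
  (if a then sinv else id) (F ((if b then sinv else id) x))

/-- Holomorphic self-maps. -/
structure Hol (F : Sph → Sph) : Prop where
  cont : Continuous F
  an : ∀ a b (z : ℂ), tw a b F z ≠ ∞ → AnalyticAt ℂ (fun w : ℂ => fin (tw a b F w)) z

lemma tw_inner (b : Bool) : Continuous (if b then sinv else id : Sph → Sph) := by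
  cases b
  · exact continuous_id
  · exact continuous_sinv

lemma Hol.cont_tw {F : Sph → Sph} (h : Hol F) (a b : Bool) : Continuous (tw a b F) :=
  (tw_inner a).comp (h.cont.comp (tw_inner b))

lemma Hol.comp {F G : Sph → Sph} (hF : Hol F) (hG : Hol G) : Hol (F ∘ G) := by
  refine ⟨hF.cont.comp hG.cont, fun a b z hz => ?_⟩
  by_cases h : tw false b G z = ∞
  · -- use the chart at infinity
    have h1 : tw true b G z ≠ ∞ := by
      have : tw true b G z = sinv (tw false b G z) := rfl
      rw [this, h, sinv_infty]; exact OnePoint.coe_ne_infty _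
    have e : ∀ w, tw a b (F ∘ G) w = tw a true F (tw true b G w) := by
      intro w
      simp only [tw, Function.comp, if_true, sinv_sinv]
    have hev : ∀ᶠ w : ℂ in 𝓝 z, tw true b G w ≠ ∞ := by
      have := (hG.cont_tw true b).comp OnePoint.continuous_coe
      exact this.continuousAt.eventually_ne h1
    have h2 := hG.an true b z h1
    have h3 : AnalyticAt ℂ (fun w : ℂ => fin (tw a true F w)) (fin (tw true b G z)) := by
      apply hF.an a true
      rw [coe_fin h1, ← e]; exact hz
    refine (h3.comp_of_eq h2 rfl).congr ?_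
    filter_upwards [hev] with w hw
    show fin (tw a true F ((fin (tw true b G w) : ℂ) : Sph)) = _
    rw [coe_fin hw, ← e]
  · have h1 := h
    have e : ∀ w, tw a b (F ∘ G) w = tw a false F (tw false b G w) := by
      intro w
      simp [tw, Function.comp]
    have hev : ∀ᶠ w : ℂ in 𝓝 z, tw false b G w ≠ ∞ := by
      have := (hG.cont_tw false b).comp OnePoint.continuous_coe
      exact this.continuousAt.eventually_ne h1
    have h2 := hG.an false b z h1
    have h3 : AnalyticAt ℂ (fun w : ℂ => fin (tw a false F w)) (fin (tw false b G z)) := by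
      apply hF.an a false
      rw [coe_fin h1, ← e]; exact hz
    refine (h3.comp_of_eq h2 rfl).congr ?_
    filter_upwards [hev] with w hw
    show fin (tw a false F ((fin (tw false b G w) : ℂ) : Sph)) = _
    rw [coe_fin hw, ← e]

lemma ratMap_analyticAt (P Q : ℂ[X]) {z : ℂ} (hz : ratMap P Q z ≠ ∞) :
    AnalyticAt ℂ (fun w : ℂ => fin (ratMap P Q w)) z := by
  have h1 : Q.eval z ≠ 0 := by
    intro h; apply hz; rw [ratMap_coe, if_pos h]
  have h2 : AnalyticAt ℂ (fun w : ℂ => P.eval w / Q.eval w) z :=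
    (P.differentiable.analyticAt z).div (Q.differentiable.analyticAt z) h1
  refine h2.congr ?_
  have h3 : ∀ᶠ w in 𝓝 z, Q.eval w ≠ 0 := Q.continuous.continuousAt.eventually_ne h1
  filter_upwards [h3] with w hw
  rw [ratMap_coe, if_neg hw, fin_coe]

lemma ratMap_continuousAt (P Q : ℂ[X]) {z : ℂ} (hz : Q.eval z ≠ 0) :
    ContinuousAt (ratMap P Q) z := by
  rw [OnePoint.continuousAt_coe]
  have h2 : ContinuousAt (fun w : ℂ => ((P.eval w / Q.eval w : ℂ) : Sph)) z :=
    OnePoint.continuous_coe.continuousAt.comp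
      (P.continuous.continuousAt.div Q.continuous.continuousAt hz)
  refine h2.congr ?_
  have h3 : ∀ᶠ w in 𝓝 z, Q.eval w ≠ 0 := Q.continuous.continuousAt.eventually_ne hz
  filter_upwards [h3] with w hw
  rw [Function.comp, ratMap_coe, if_neg hw]

lemma Good.continuousAt_coe {P Q : ℂ[X]} (h : Good P Q) (z : ℂ) :
    ContinuousAt (ratMap P Q) z := by
  by_cases hz : Q.eval z = 0
  · have h1 : P.eval z ≠ 0 := fun h1 => h.cop z h1 hz
    have h2 := continuous_sinv.continuousAt.comp (ratMap_continuousAt Q P h1)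
    refine h2.congr (Eventually.of_forall fun w => ?_)
    exact h.symm.sinv_ratMap w
  · exact ratMap_continuousAt P Q hz

lemma Good.continuous {P Q : ℂ[X]} (h : Good P Q) : Continuous (ratMap P Q) := by
  rw [continuous_iff_continuousAt]
  intro x
  induction x using OnePoint.rec with
  | infty =>
    have h1 : ContinuousAt (ratMap (P.reflect (dg P Q)) (Q.reflect (dg P Q)) ∘ sinv) ∞ := by
      refine ContinuousAt.comp ?_ continuous_sinv.continuousAt
      rw [sinv_infty]
      exact h.reflect.continuousAt_coe 0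
    refine h1.congr (Eventually.of_forall fun w => ?_)
    rw [Function.comp, ← h.ratMap_sinv, sinv_sinv]
  | coe z => exact h.continuousAt_coe z

lemma Good.hol {P Q : ℂ[X]} (h : Good P Q) : Hol (ratMap P Q) := by
  refine ⟨h.continuous, fun a b z hz => ?_⟩
  cases a <;> cases b
  · exact ratMap_analyticAt P Q hz
  · have e : tw false true (ratMap P Q) = ratMap (P.reflect (dg P Q)) (Q.reflect (dg P Q)) := by
      funext x; exact h.ratMap_sinv x
    rw [e] at hz ⊢
    exact ratMap_analyticAt _ _ hz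
  · have e : tw true false (ratMap P Q) = ratMap Q P := by
      funext x; exact h.sinv_ratMap x
    rw [e] at hz ⊢
    exact ratMap_analyticAt _ _ hz
  · have e : tw true true (ratMap P Q) = ratMap (Q.reflect (dg Q P)) (P.reflect (dg Q P)) := by
      funext x
      show sinv (ratMap P Q (sinv x)) = _
      rw [h.sinv_ratMap, h.symm.ratMap_sinv]
    rw [e] at hz ⊢
    exact ratMap_analyticAt _ _ hz

/-! ### Openness -/

/-- Non-proportional good pairs. -/
structure NonConst (P Q : ℂ[X]) : Prop where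
  good : Good P Q
  nc : ∀ c : ℂ, P ≠ C c * Q

lemma NonConst.symm {P Q : ℂ[X]} (h : NonConst P Q) : NonConst Q P := by
  refine ⟨h.good.symm, fun c hc => ?_⟩
  have hc0 : c ≠ 0 := by
    rintro rfl; rw [C_0, zero_mul] at hc; exact h.good.hQ hc
  apply h.nc c⁻¹
  rw [hc, ← mul_assoc, ← C_mul, inv_mul_cancel₀ hc0, C_1, one_mul]

lemma NonConst.reflect {P Q : ℂ[X]} (h : NonConst P Q) :
    NonConst (P.reflect (dg P Q)) (Q.reflect (dg P Q)) := by
  refine ⟨h.good.reflect, fun c hc => h.nc c ?_⟩
  have := congrArg (fun R : ℂ[X] => R.reflect (dg P Q)) hc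
  simp only [reflect_C_mul, reflect_reflect] at this
  exact this

lemma NonConst.open_finite {P Q : ℂ[X]} (h : NonConst P Q) {z : ℂ} (hz : Q.eval z ≠ 0) :
    𝓝 (ratMap P Q z) ≤ map (ratMap P Q) (𝓝 z) := by
  have h2 : AnalyticAt ℂ (fun w : ℂ => P.eval w / Q.eval w) z :=
    (P.differentiable.analyticAt z).div (Q.differentiable.analyticAt z) hz
  have h3 : ∀ᶠ w in 𝓝 z, Q.eval w ≠ 0 := Q.continuous.continuousAt.eventually_ne hz
  rcases h2.eventually_constant_or_nhds_le_map_nhds with h4 | h4
  · exfalso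
    apply h.nc (P.eval z / Q.eval z)
    have h5 : ∀ᶠ w in 𝓝 z, (P - C (P.eval z / Q.eval z) * Q).eval w = 0 := by
      filter_upwards [h3, h4] with w hw1 hw2
      rw [eval_sub, eval_mul, eval_C, ← hw2]
      field_simp
      ring
    have h6 : (P - C (P.eval z / Q.eval z) * Q) = 0 := by
      apply Polynomial.eq_zero_of_infinite_isRoot
      have h7 : {w | (P - C (P.eval z / Q.eval z) * Q).IsRoot w} ∈ 𝓝 z := h5
      exact infinite_of_mem_nhds z h7
    exact sub_eq_zero.1 h6
  · have e1 : ratMap P Q z = ((P.eval z / Q.eval z : ℂ) : Sph) := by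
      rw [ratMap_coe, if_neg hz]
    rw [e1, OnePoint.nhds_coe_eq, OnePoint.nhds_coe_eq, Filter.map_map]
    refine (Filter.map_mono h4).trans ?_
    rw [Filter.map_map]
    apply le_of_eq
    apply Filter.map_congr
    filter_upwards [h3] with w hw
    simp only [Function.comp]
    rw [ratMap_coe, if_neg hw]

lemma nhds_sinv (x : Sph) : 𝓝 (sinv x) = map sinv (𝓝 x) := (sinvHomeo.map_nhds_eq x).symm

lemma NonConst.open_coe {P Q : ℂ[X]} (h : NonConst P Q) (z : ℂ) :
    𝓝 (ratMap P Q z) ≤ map (ratMap P Q) (𝓝 z) := by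
  by_cases hz : Q.eval z = 0
  · have h1 : P.eval z ≠ 0 := fun h1 => h.good.cop z h1 hz
    have h2 := h.symm.open_finite h1
    have h3 := Filter.map_mono (m := sinv) h2
    rw [← nhds_sinv, Filter.map_map, h.good.symm.sinv_ratMap] at h3
    refine h3.trans (le_of_eq ?_)
    congr 1
    funext w
    exact h.good.symm.sinv_ratMap w
  · exact h.open_finite hz

lemma NonConst.isOpenMap {P Q : ℂ[X]} (h : NonConst P Q) : IsOpenMap (ratMap P Q) := by
  rw [isOpenMap_iff_nhds_le]
  intro x
  induction x using OnePoint.rec with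
  | infty =>
    have h1 := h.reflect.open_coe 0
    have e1 : ratMap (P.reflect (dg P Q)) (Q.reflect (dg P Q)) ((0 : ℂ) : Sph) = ratMap P Q ∞ := by
      rw [← h.good.ratMap_sinv, sinv_zero]
    rw [e1] at h1
    refine h1.trans (le_of_eq ?_)
    have e2 : 𝓝 (((0 : ℂ)) : Sph) = map sinv (𝓝 ∞) := by rw [← nhds_sinv, sinv_infty]
    rw [e2, Filter.map_map]
    congr 1
    funext w
    rw [Function.comp, ← h.good.ratMap_sinv, sinv_sinv]
  | coe z => exact h.open_coe z

lemma nonConst_of_coprime {P Q : ℂ[X]} (hc : IsCoprime P Q)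
    (hd : 1 ≤ max P.natDegree Q.natDegree) : NonConst P Q := by
  obtain ⟨a, b, hab⟩ := hc
  have hcop : ∀ z, P.eval z = 0 → Q.eval z = 0 → False := by
    intro z h1 h2
    have := congrArg (Polynomial.eval z) hab
    rw [eval_add, eval_mul, eval_mul, h1, h2, eval_one] at this
    simp at this
  have hP : P ≠ 0 := by
    rintro rfl
    rw [mul_zero, zero_add] at hab
    have h1 : IsUnit Q := IsUnit.of_mul_eq_one_right b hab
    rw [natDegree_eq_zero_of_isUnit h1] at hd
    simp at hd
  have hQ : Q ≠ 0 := by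
    rintro rfl
    rw [mul_zero, add_zero] at hab
    have h1 : IsUnit P := IsUnit.of_mul_eq_one_right a hab
    rw [natDegree_eq_zero_of_isUnit h1] at hd
    simp at hd
  refine ⟨⟨hP, hQ, hcop⟩, fun c hcc => ?_⟩
  have hc0 : c ≠ 0 := by
    rintro rfl; rw [C_0, zero_mul] at hcc; exact hP hcc
  have hdeg : P.natDegree = Q.natDegree := by
    rw [hcc, natDegree_C_mul hc0]
  rw [hdeg, max_self] at hd
  obtain ⟨z, hz⟩ := Complex.exists_root (f := Q) (by
    rw [← natDegree_pos_iff_degree_pos]; omega)
  have hz' : Q.eval z = 0 := hz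
  apply hcop z _ hz'
  rw [hcc, eval_mul, hz', mul_zero]

end Pool.Agent.Work.MP_cf3138_an
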