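import Pool.Agent.Work.MP_cf3138_an.Defs

/-!
Topology of the Riemann sphere `OnePoint ℂ`: the inversion, local connectedness, chart
bookkeeping.
-/

open Set Filter Topology OnePoint

namespace Pool.Agent.Work.MP_cf3138_an

/-- The finite part of a point of the sphere (`0` at infinity). -/
noncomputable def fin : Sph → ℂ
  | ∞ => 0
  | OnePoint.some z => z

@[simp] lemma fin_coe (z : ℂ) : fin (z : Sph) = z := rfl
@[simp] lemma fin_infty : fin (∞ : Sph) = 0 := rfl
lemma coe_fin {x : Sph} (h : x ≠ ∞) : ((fin x : ℂ) : Sph) = x := by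
  obtain ⟨y, rfl⟩ := OnePoint.ne_infty_iff_exists.1 h
  rfl

@[simp] lemma sinv_infty : sinv ∞ = ((0 : ℂ) : Sph) := rfl
@[simp] lemma sinv_zero : sinv ((0 : ℂ) : Sph) = ∞ := by
  show (if (0 : ℂ) = 0 then (∞ : Sph) else _) = ∞
  simp
lemma sinv_coe {z : ℂ} (h : z ≠ 0) : sinv (z : Sph) = ((z⁻¹ : ℂ) : Sph) := by
  show (if z = 0 then (∞ : Sph) else ((z⁻¹ : ℂ) : Sph)) = _
  rw [if_neg h]

lemma sinv_sinv (x : Sph) : sinv (sinv x) = x := by
  induction x using OnePoint.rec with
  | infty => simp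
  | coe z =>
    by_cases h : z = 0
    · subst h; simp
    · rw [sinv_coe h, sinv_coe (inv_ne_zero h), inv_inv]

lemma sinv_eq_infty {x : Sph} : sinv x = ∞ ↔ x = ((0 : ℂ) : Sph) := by
  constructor
  · intro h
    have := sinv_sinv x
    rw [h] at this
    rw [← this]; simp
  · rintro rfl; simp

lemma continuous_sinv : Continuous sinv := by
  rw [continuous_iff_continuousAt]
  intro x
  induction x using OnePoint.rec with
  | infty =>
    rw [OnePoint.continuousAt_infty']
    have h1 : Tendsto (fun z : ℂ => ((z⁻¹ : ℂ) : Sph)) (coclosedCompact ℂ) (𝓝 (sinv ∞)) := by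
      rw [coclosedCompact_eq_cocompact, ← Metric.cobounded_eq_cocompact]
      exact (OnePoint.continuous_coe.tendsto (0 : ℂ)).comp tendsto_inv₀_cobounded
    refine h1.congr' ?_
    rw [coclosedCompact_eq_cocompact, ← Metric.cobounded_eq_cocompact]
    filter_upwards [Bornology.eventually_ne_cobounded (0 : ℂ)] with z hz
    exact (sinv_coe hz).symm
  | coe z =>
    rw [OnePoint.continuousAt_coe]
    by_cases h : z = 0
    · subst h
      rw [continuousAt_iff_punctured_nhds]
      have h1 : Tendsto (fun z : ℂ => ((z⁻¹ : ℂ) : Sph)) (𝓝[≠] 0) (𝓝 ∞) := by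
        refine OnePoint.tendsto_coe_infty.comp ?_
        rw [coclosedCompact_eq_cocompact, ← Metric.cobounded_eq_cocompact]
        exact tendsto_inv₀_nhdsNE_zero
      show Tendsto (sinv ∘ OnePoint.some) (𝓝[≠] 0) (𝓝 (sinv ((0 : ℂ) : Sph)))
      rw [sinv_zero]
      refine h1.congr' ?_
      filter_upwards [self_mem_nhdsWithin] with w hw
      exact (sinv_coe hw).symm
    · have h1 : ContinuousAt (fun z : ℂ => ((z⁻¹ : ℂ) : Sph)) z :=
        OnePoint.continuous_coe.continuousAt.comp (continuousAt_inv₀ h)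
      refine h1.congr ?_
      filter_upwards [isOpen_ne.mem_nhds h] with w hw
      exact (sinv_coe hw).symm

/-- The inversion as a homeomorphism. -/
noncomputable def sinvHomeo : Sph ≃ₜ Sph where
  toFun := sinv
  invFun := sinv
  left_inv := sinv_sinv
  right_inv := sinv_sinv
  continuous_toFun := continuous_sinv
  continuous_invFun := continuous_sinv

lemma isOpenMap_sinv : IsOpenMap sinv := sinvHomeo.isOpenMap

instance : LocallyConnectedSpace Sph := by
  have key : ∀ (z : ℂ) (U : Set Sph), U ∈ 𝓝 (z : Sph) →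
      ∃ V ⊆ U, IsOpen V ∧ (z : Sph) ∈ V ∧ IsPreconnected V := by
    intro z U hU
    have h1 : ((↑) : ℂ → Sph) ⁻¹' U ∈ 𝓝 z := OnePoint.continuous_coe.continuousAt hU
    obtain ⟨r, hr, hrU⟩ := Metric.mem_nhds_iff.1 h1
    refine ⟨(↑) '' Metric.ball z r, ?_, OnePoint.isOpenMap_coe _ Metric.isOpen_ball,
      ⟨z, Metric.mem_ball_self hr, rfl⟩,
      (convex_ball z r).isPreconnected.image _ OnePoint.continuous_coe.continuousOn⟩
    rintro _ ⟨w, hw, rfl⟩
    exact hrU hw
  rw [locallyConnectedSpace_iff_subsets_isOpen_isConnected]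
  intro x U hU
  induction x using OnePoint.rec with
  | coe z =>
    obtain ⟨V, h1, h2, h3, h4⟩ := key z U hU
    exact ⟨V, h1, h2, h3, ⟨⟨_, h3⟩, h4⟩⟩
  | infty =>
    have h0 : sinv ⁻¹' U ∈ 𝓝 (((0 : ℂ)) : Sph) := by
      apply continuous_sinv.continuousAt
      rw [sinv_zero]; exact hU
    obtain ⟨V, h1, h2, h3, h4⟩ := key 0 _ h0
    refine ⟨sinv '' V, ?_, isOpenMap_sinv _ h2, ⟨_, h3, sinv_zero⟩,
      ⟨⟨_, ⟨_, h3, sinv_zero⟩⟩, h4.image _ continuous_sinv.continuousOn⟩⟩
    rintro _ ⟨w, hw, rfl⟩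
    exact h1 hw

end Pool.Agent.Work.MP_cf3138_an
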